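import Pool.Agent.Helper72.BQ.Defs
import Pool.Agent.Helper85.BPM.K1
import Pool.Agent.Helper85.BPM.K2

/-!
# MP_3dd6d4_an, BQ : module Q4b (evaluation of the second integral)
-/

set_option autoImplicit false

open MeasureTheory Complex FourierTransform Filter Topology
open scoped ENNReal NNReal ComplexConjugate

noncomputable section

namespace Helper72.BQ.P

open Helper72.BA Helper85.BP Helper72.BQ

theorem Q4b_Gx_conj (a : ℂ) : Gx (conj a) = conj (Gx a) := by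
  unfold Gx
  rw [map_div₀, map_mul, Complex.conj_ofReal, ← Complex.Gamma_conj, ← Complex.Gamma_conj,
    map_div₀, map_sub, map_div₀, map_one, map_ofNat]

theorem Q4b_Gx_refl (a : ℂ) : Gx (2 - a) = Real.pi ^ 2 / Gx a := by
  unfold Gx
  rw [show (2 - a) / 2 = 1 - a / 2 by ring, show 1 - (1 - a / 2) = a / 2 by ring]
  have hpi : (Real.pi : ℂ) ≠ 0 := by exact_mod_cast Real.pi_pos.ne'
  field_simp

/-- the inner integral -/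
theorem Q4b_inner (K : ℕ) (hK : 2 ≤ K) (σ : ℝ) (ξ : ℂ) (hξ : ξ ≠ 0) :
    Integrable (fun η => cpw (((1 / (K:ℝ) : ℝ) : ℂ) - I * (σ : ℂ)) η *
      cpw ((2 - 2 / (K:ℝ) : ℝ) : ℂ) (ξ - η)) ∧
    (‖ξ‖ : ℂ) ^ (I * (σ : ℂ)) * ∫ η, cpw (((1 / (K:ℝ) : ℝ) : ℂ) - I * (σ : ℂ)) η *
      cpw ((2 - 2 / (K:ℝ) : ℝ) : ℂ) (ξ - η) =
    ((Gc (2 - 2 / (K:ℝ)) / Real.pi ^ 2 * ‖Gx (((1 / (K:ℝ) : ℝ) : ℂ) + I * (σ : ℂ))‖ ^ 2 *
      ‖ξ‖ ^ (-(1 / (K:ℝ))) : ℝ) : ℂ) := by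
  have hK' : (2:ℝ) ≤ K := by exact_mod_cast hK
  have hK0 : (0:ℝ) < K := by linarith
  have h1K : 0 < 1 / (K:ℝ) := by positivity
  have h1K' : 1 / (K:ℝ) ≤ 1 / 2 := one_div_le_one_div_of_le (by norm_num) hK'
  have h2K : 2 / (K:ℝ) = 2 * (1 / (K:ℝ)) := by ring
  set a : ℂ := ((1 / (K:ℝ) : ℝ) : ℂ) + I * (σ : ℂ) with ha
  set b : ℝ := 2 - 2 / (K:ℝ) with hb
  have hca : ((1 / (K:ℝ) : ℝ) : ℂ) - I * (σ : ℂ) = conj a := by
    rw [ha, map_add, map_mul, Complex.conj_ofReal, Complex.conj_ofReal, Complex.conj_I]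
    ring
  rw [hca]
  have hre : a.re = 1 / (K:ℝ) := by
    rw [ha]
    simp
  have hre' : (conj a).re = 1 / (K:ℝ) := by rw [Complex.conj_re, hre]
  have hb0 : 0 < b := by rw [hb, h2K]; linarith
  obtain ⟨h1, h2⟩ := Helper85.BP.P.riesz_cx (conj a) (b : ℂ) (by rw [hre']; exact h1K)
    (by rw [Complex.ofReal_re]; exact hb0)
    (by rw [hre', Complex.ofReal_re, hb, h2K]; linarith) ξ hξ
  refine ⟨h1, ?_⟩
  have hsum : conj a + (b : ℂ) = 2 - a := by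
    rw [← hca, ha, hb]
    push_cast
    ring
  rw [h2, hsum, Q4b_Gx_refl, Q4b_Gx_conj, Helper85.BP.P.Gx_real]
  have hr : 0 < ‖ξ‖ := norm_pos_iff.2 hξ
  have hrc : (‖ξ‖ : ℂ) ≠ 0 := by exact_mod_cast hr.ne'
  have hG : Gx a ≠ 0 := Helper85.BP.P.Gx_ne (by rw [hre]; exact h1K) (by rw [hre]; linarith)
  have e1 : (‖ξ‖ : ℂ) ^ (I * (σ : ℂ)) * cpw (2 - a) ξ = ((‖ξ‖ ^ (-(1 / (K:ℝ))) : ℝ) : ℂ) := by
    unfold cpw
    rw [← Complex.cpow_add _ _ hrc, Complex.ofReal_cpow hr.le]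
    congr 1
    rw [ha]
    push_cast
    ring
  have e2 : ((‖Gx a‖ ^ 2 : ℝ) : ℂ) = Gx a * conj (Gx a) := by
    rw [Complex.mul_conj, Complex.normSq_eq_norm_sq]
  have hpi : (Real.pi : ℂ) ≠ 0 := by exact_mod_cast Real.pi_pos.ne'
  calc (‖ξ‖ : ℂ) ^ (I * (σ : ℂ)) * (conj (Gx a) * (Gc b : ℂ) / (Real.pi ^ 2 / Gx a) *
        cpw (2 - a) ξ)
      = (Gc b : ℂ) / Real.pi ^ 2 * (Gx a * conj (Gx a)) *
        ((‖ξ‖ : ℂ) ^ (I * (σ : ℂ)) * cpw (2 - a) ξ) := by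
        field_simp
    _ = _ := by
        rw [e1, ← e2]
        push_cast
        ring

/-- the integrand in complex form -/
theorem Q4b_re (K : ℕ) (β τ : ℝ) (ξ η : ℂ) (hξ : ξ ≠ 0) (hη : η ≠ 0) :
    (Real.cos (β * τ * rk K ξ η) - β * τ * Real.sin (β * τ * rk K ξ η)) *
      (‖η‖ ^ (1 / (K:ℝ) - 2) * ‖ξ - η‖ ^ (-(2 / (K:ℝ)))) =
    ((1 + I * ((β * τ : ℝ) : ℂ)) * ((‖ξ‖ : ℂ) ^ (I * ((β * τ / K : ℝ) : ℂ)) *
      (cpw (((1 / (K:ℝ) : ℝ) : ℂ) - I * ((β * τ / K : ℝ) : ℂ)) η *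
      cpw ((2 - 2 / (K:ℝ) : ℝ) : ℂ) (ξ - η)))).re := by
  have hr : 0 < ‖ξ‖ := norm_pos_iff.2 hξ
  have hrc : (‖ξ‖ : ℂ) ≠ 0 := by exact_mod_cast hr.ne'
  have hs : 0 < ‖η‖ := norm_pos_iff.2 hη
  have hsc : (‖η‖ : ℂ) ≠ 0 := by exact_mod_cast hs.ne'
  have e1 : cpw ((2 - 2 / (K:ℝ) : ℝ) : ℂ) (ξ - η) = ((‖ξ - η‖ ^ (-(2 / (K:ℝ))) : ℝ) : ℂ) := by
    rw [Helper85.BP.P.cpw_real]
    congr 2
    ring
  have e2 : (‖ξ‖ : ℂ) ^ (I * ((β * τ / K : ℝ) : ℂ)) =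
      Complex.exp (((β * τ / K * Real.log ‖ξ‖ : ℝ) : ℂ) * I) := by
    rw [Complex.cpow_def_of_ne_zero hrc, ← Complex.ofReal_log hr.le]
    congr 1
    push_cast
    ring
  have e3 : cpw (((1 / (K:ℝ) : ℝ) : ℂ) - I * ((β * τ / K : ℝ) : ℂ)) η =
      ((‖η‖ ^ (1 / (K:ℝ) - 2) : ℝ) : ℂ) *
        Complex.exp (-(((β * τ / K * Real.log ‖η‖ : ℝ) : ℂ) * I)) := by
    unfold cpw
    rw [show ((1 / (K:ℝ) : ℝ) : ℂ) - I * ((β * τ / K : ℝ) : ℂ) - 2 =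
      ((1 / (K:ℝ) - 2 : ℝ) : ℂ) + (-(I * ((β * τ / K : ℝ) : ℂ))) by push_cast; ring,
      Complex.cpow_add _ _ hsc, ← Complex.ofReal_cpow hs.le]
    congr 1
    rw [Complex.cpow_def_of_ne_zero hsc, ← Complex.ofReal_log hs.le]
    congr 1
    push_cast
    ring
  have e4 : (‖ξ‖ : ℂ) ^ (I * ((β * τ / K : ℝ) : ℂ)) *
      Complex.exp (-(((β * τ / K * Real.log ‖η‖ : ℝ) : ℂ) * I)) =
      Complex.exp (((β * τ * rk K ξ η : ℝ) : ℂ) * I) := by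
    rw [e2, ← Complex.exp_add]
    congr 1
    unfold rk
    push_cast
    ring
  have e5 : (1 + I * ((β * τ : ℝ) : ℂ)) * ((‖ξ‖ : ℂ) ^ (I * ((β * τ / K : ℝ) : ℂ)) *
      (cpw (((1 / (K:ℝ) : ℝ) : ℂ) - I * ((β * τ / K : ℝ) : ℂ)) η *
      cpw ((2 - 2 / (K:ℝ) : ℝ) : ℂ) (ξ - η))) =
      ((‖η‖ ^ (1 / (K:ℝ) - 2) * ‖ξ - η‖ ^ (-(2 / (K:ℝ))) : ℝ) : ℂ) *
      ((1 + I * ((β * τ : ℝ) : ℂ)) * Complex.exp (((β * τ * rk K ξ η : ℝ) : ℂ) * I)) := by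
    rw [← e4, e1, e3]
    push_cast
    ring
  rw [e5, Complex.re_ofReal_mul, mul_comm]
  congr 1
  rw [Complex.mul_re, Complex.exp_ofReal_mul_I_re, Complex.exp_ofReal_mul_I_im]
  simp

theorem E_eval (K : ℕ) (hK : 2 ≤ K) (β : ℝ) (hβ : 0 < β) (W : ℝ → ℝ) (hW : Adm β W)
    (ξ : ℂ) (hξ : ξ ≠ 0) :
    ∫⁻ η, om K η * ENNReal.ofReal (Aw β W (rk K ξ η)) * ‖ξ - η‖ₑ ^ (-(2 / (K:ℝ))) =
      ENNReal.ofReal (Gc (2 - 2 / (K:ℝ)) / Real.pi ^ 2 * cW K β W) * ‖ξ‖ₑ ^ (-(1 / (K:ℝ))) := by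
  have hK' : (2:ℝ) ≤ K := by exact_mod_cast hK
  have hK0 : (0:ℝ) < K := by linarith
  have h1K : 0 < 1 / (K:ℝ) := by positivity
  have h1K' : 1 / (K:ℝ) ≤ 1 / 2 := one_div_le_one_div_of_le (by norm_num) hK'
  have h2K : 2 / (K:ℝ) = 2 * (1 / (K:ℝ)) := by ring
  have hr : 0 < ‖ξ‖ := norm_pos_iff.2 hξ
  obtain ⟨-, hA, -, -, hAc, -, -⟩ := Helper85.BP.P.Wh_ptw β hβ W hW
  set D : ℂ → ℝ := fun η => ‖η‖ ^ (1 / (K:ℝ) - 2) * ‖ξ - η‖ ^ (-(2 / (K:ℝ))) with hD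
  have hD0 : ∀ η, 0 ≤ D η := fun η =>
    mul_nonneg (Real.rpow_nonneg (norm_nonneg _) _) (Real.rpow_nonneg (norm_nonneg _) _)
  have hDi : Integrable D := by
    have := Helper85.BP.P.int_real (1 / (K:ℝ)) (2 - 2 / (K:ℝ)) h1K (by rw [h2K]; linarith)
      (by rw [h2K]; linarith) ξ hξ
    refine this.congr (Eventually.of_forall fun η => ?_)
    show ‖η‖ ^ (1 / (K:ℝ) - 2) * ‖ξ - η‖ ^ (2 - 2 / (K:ℝ) - 2) =
      ‖η‖ ^ (1 / (K:ℝ) - 2) * ‖ξ - η‖ ^ (-(2 / (K:ℝ)))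
    rw [show 2 - 2 / (K:ℝ) - 2 = -(2 / (K:ℝ)) by ring]
  set g : ℝ → ℂ → ℝ := fun τ η => W τ * (Real.cos (β * τ * rk K ξ η) -
    β * τ * Real.sin (β * τ * rk K ξ η)) * D η with hg
  have hAg : ∀ η, ∫ τ, g τ η = Aw β W (rk K ξ η) * D η := by
    intro η
    rw [hg]
    simp only
    rw [integral_mul_const]
    rfl
  have hrkm : Measurable (fun η => rk K ξ η) := by
    unfold rk
    fun_prop
  -- integrability on the product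
  have hW1 : Integrable (fun τ => 2 * ((1 + β ^ 2 * τ ^ 2) * W τ)) := hW.int.const_mul 2
  have hgi : Integrable (Function.uncurry g) (volume.prod volume) := by
    refine Integrable.mono' (hW1.mul_prod hDi) ?_ (Eventually.of_forall fun p => ?_)
    · refine Measurable.aestronglyMeasurable ?_
      have m1 : Measurable (fun p : ℝ × ℂ => rk K ξ p.2) := hrkm.comp measurable_snd
      have m2 : Measurable (fun p : ℝ × ℂ => W p.1) := hW.cont.measurable.comp measurable_fst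
      have m3 : Measurable (fun p : ℝ × ℂ => D p.2) := by
        rw [hD]
        fun_prop
      have m4 : Measurable (fun p : ℝ × ℂ => β * p.1 * rk K ξ p.2) :=
        (measurable_const.mul measurable_fst).mul m1
      exact (m2.mul ((Real.measurable_cos.comp m4).sub
        ((measurable_const.mul measurable_fst).mul (Real.measurable_sin.comp m4)))).mul m3
    · rcases p with ⟨τ, η⟩
      show ‖W τ * (Real.cos (β * τ * rk K ξ η) - β * τ * Real.sin (β * τ * rk K ξ η)) * D η‖ ≤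
        2 * ((1 + β ^ 2 * τ ^ 2) * W τ) * D η
      rw [norm_mul, norm_mul, Real.norm_of_nonneg (hD0 η), Real.norm_of_nonneg (hW.nonneg τ)]
      refine mul_le_mul_of_nonneg_right ?_ (hD0 η)
      have h1 := Real.abs_cos_le_one (β * τ * rk K ξ η)
      have h2 := Real.abs_sin_le_one (β * τ * rk K ξ η)
      have h3 : |β * τ| ≤ 1 + (β * τ) ^ 2 := by
        rcases abs_cases (β * τ) with h | h <;>
          nlinarith [sq_nonneg (β * τ - 1), sq_nonneg (β * τ + 1), sq_nonneg (β * τ)]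
      have h4 : ‖Real.cos (β * τ * rk K ξ η) - β * τ * Real.sin (β * τ * rk K ξ η)‖ ≤
          2 * (1 + β ^ 2 * τ ^ 2) := by
        rw [Real.norm_eq_abs]
        calc |Real.cos (β * τ * rk K ξ η) - β * τ * Real.sin (β * τ * rk K ξ η)|
            ≤ |Real.cos (β * τ * rk K ξ η)| + |β * τ * Real.sin (β * τ * rk K ξ η)| := abs_sub _ _
          _ = |Real.cos (β * τ * rk K ξ η)| + |β * τ| * |Real.sin (β * τ * rk K ξ η)| := by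
              rw [abs_mul (β * τ)]
          _ ≤ 1 + |β * τ| * 1 := by gcongr
          _ ≤ 2 * (1 + β ^ 2 * τ ^ 2) := by nlinarith [sq_nonneg (β * τ)]
      have := mul_le_mul_of_nonneg_left h4 (hW.nonneg τ)
      linarith
  -- step A
  have hA1 : ∫⁻ η, om K η * ENNReal.ofReal (Aw β W (rk K ξ η)) * ‖ξ - η‖ₑ ^ (-(2 / (K:ℝ))) =
      ∫⁻ η, ENNReal.ofReal (∫ τ, g τ η) := by
    refine lintegral_congr_ae ?_
    filter_upwards [Helper85.BP.P.ae_ne_two ξ] with η hη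
    have h1 : 0 < ‖η‖ := norm_pos_iff.2 hη.1
    have h2 : 0 < ‖ξ - η‖ := norm_pos_iff.2 hη.2
    rw [hAg, om, ← ofReal_norm, ENNReal.ofReal_rpow_of_pos h2,
      ← ENNReal.ofReal_mul (Real.rpow_nonneg h1.le _),
      ← ENNReal.ofReal_mul (mul_nonneg (Real.rpow_nonneg h1.le _) (hA _))]
    congr 1
    rw [hD]
    ring
  have hB : ∫⁻ η, ENNReal.ofReal (∫ τ, g τ η) = ENNReal.ofReal (∫ η, ∫ τ, g τ η) := by
    refine (ofReal_integral_eq_lintegral_ofReal (f := fun η => ∫ τ, g τ η)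
      hgi.integral_prod_right (Eventually.of_forall fun η => ?_)).symm
    show 0 ≤ ∫ τ, g τ η
    rw [hAg]
    exact mul_nonneg (hA _) (hD0 _)
  have hC : ∫ η, ∫ τ, g τ η = ∫ τ, ∫ η, g τ η := (integral_integral_swap hgi).symm
  have hDD : ∀ τ, ∫ η, g τ η = (Gc (2 - 2 / (K:ℝ)) / Real.pi ^ 2 * ‖ξ‖ ^ (-(1 / (K:ℝ)))) *
      (W τ * ‖Gx (((1 / (K:ℝ) : ℝ) : ℂ) + I * ((β * τ / K : ℝ) : ℂ))‖ ^ 2) := by
    intro τ
    obtain ⟨i1, i2⟩ := Q4b_inner K hK (β * τ / K) ξ hξ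
    have e1 : ∫ η, g τ η = ∫ η, W τ * ((1 + I * ((β * τ : ℝ) : ℂ)) *
        ((‖ξ‖ : ℂ) ^ (I * ((β * τ / K : ℝ) : ℂ)) *
      (cpw (((1 / (K:ℝ) : ℝ) : ℂ) - I * ((β * τ / K : ℝ) : ℂ)) η *
      cpw ((2 - 2 / (K:ℝ) : ℝ) : ℂ) (ξ - η)))).re := by
      refine integral_congr_ae ?_
      filter_upwards [Helper85.BP.P.ae_ne_two ξ] with η hη
      rw [← Q4b_re K β τ ξ η hξ hη.1, hg]
      simp only
      rw [hD]
      ring
    have i3 : Integrable (fun η => (1 + I * ((β * τ : ℝ) : ℂ)) *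
        ((‖ξ‖ : ℂ) ^ (I * ((β * τ / K : ℝ) : ℂ)) *
      (cpw (((1 / (K:ℝ) : ℝ) : ℂ) - I * ((β * τ / K : ℝ) : ℂ)) η *
      cpw ((2 - 2 / (K:ℝ) : ℝ) : ℂ) (ξ - η)))) := (i1.const_mul _).const_mul _
    rw [e1, integral_const_mul]
    have e2 : ∫ η, ((1 + I * ((β * τ : ℝ) : ℂ)) *
        ((‖ξ‖ : ℂ) ^ (I * ((β * τ / K : ℝ) : ℂ)) *
      (cpw (((1 / (K:ℝ) : ℝ) : ℂ) - I * ((β * τ / K : ℝ) : ℂ)) η *
      cpw ((2 - 2 / (K:ℝ) : ℝ) : ℂ) (ξ - η)))).re = (∫ η, (1 + I * ((β * τ : ℝ) : ℂ)) *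
        ((‖ξ‖ : ℂ) ^ (I * ((β * τ / K : ℝ) : ℂ)) *
      (cpw (((1 / (K:ℝ) : ℝ) : ℂ) - I * ((β * τ / K : ℝ) : ℂ)) η *
      cpw ((2 - 2 / (K:ℝ) : ℝ) : ℂ) (ξ - η)))).re := integral_re i3
    rw [e2, integral_const_mul, integral_const_mul, i2, mul_comm (1 + I * _),
      Complex.re_ofReal_mul]
    have e3 : (1 + I * ((β * τ : ℝ) : ℂ)).re = 1 := by simp
    rw [e3]
    ring
  rw [hA1, hB, hC]
  simp_rw [hDD]
  rw [integral_const_mul, ← ofReal_norm, ENNReal.ofReal_rpow_of_pos hr]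
  have hcW : 0 ≤ cW K β W := by
    unfold cW
    exact integral_nonneg fun τ => mul_nonneg (hW.nonneg τ) (sq_nonneg _)
  have hGc : 0 ≤ Gc (2 - 2 / (K:ℝ)) := by
    unfold Gc
    refine div_nonneg (mul_nonneg Real.pi_pos.le ?_) ?_
    · exact (Real.Gamma_pos_of_pos (by rw [h2K]; linarith)).le
    · exact (Real.Gamma_pos_of_pos (by rw [h2K]; linarith)).le
  rw [← ENNReal.ofReal_mul (by positivity)]
  congr 1
  unfold cW
  ring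

end Helper72.BQ.P
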