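import Mathlib

set_option autoImplicit false

namespace Pool.Agent.Helper17

/-- Capped divisor function: the product over the primes `p` dividing `a` of `min (v_p(a) + 1) M`,
where `v_p(a)` is the exponent of `p` in `|a|` (the empty product `1` for `a = 0`). -/
noncomputable def cappedDivisors (M : ℝ) (a : ℤ) : ℝ :=
  ∏ p ∈ a.natAbs.primeFactors, min ((a.natAbs.factorization p : ℝ) + 1) M

end Pool.Agent.Helper17
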