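import Mathlib

set_option autoImplicit false

namespace Pool.Agent.Helper17

open Finset

/-- Kraft type inequality for a tree given by refining maps. -/
theorem kraft {α γ : Type*} [DecidableEq α] [DecidableEq γ] (R : Finset α) (f : ℕ → α → γ)
    (φ : ℕ → γ → ℝ) (L : ℕ)
    (hinj : ∀ x ∈ R, ∀ y ∈ R, f L x = f L y → x = y)
    (hφ : ∀ j c, 0 ≤ φ j c)
    (href : ∀ j, ∀ x ∈ R, ∀ y ∈ R, f (j + 1) x = f (j + 1) y → f j x = f j y)
    (hsum : ∀ j < L, ∀ x ∈ R,
      ∑ c ∈ (R.filter (fun y => f j y = f j x)).image (f (j + 1)), φ j c ≤ 1)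
    (hroot : ∀ x ∈ R, ∀ y ∈ R, f 0 x = f 0 y) :
    ∑ x ∈ R, ∏ j ∈ range L, φ j (f (j + 1) x) ≤ 1 := by
  have key : ∀ m, m ≤ L → ∀ x ∈ R,
      ∑ y ∈ R.filter (fun y => f (L - m) y = f (L - m) x),
        ∏ j ∈ Ico (L - m) L, φ j (f (j + 1) y) ≤ 1 := by
    intro m
    induction m with
    | zero =>
      intro _ x hx
      have : R.filter (fun y => f (L - 0) y = f (L - 0) x) = {x} := by
        ext y
        simp only [Nat.sub_zero, mem_filter, mem_singleton]
        constructor
        · rintro ⟨h1, h2⟩
          exact hinj y h1 x hx h2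
        · rintro rfl
          exact ⟨hx, rfl⟩
      rw [this]
      simp
    | succ m ih =>
      intro hm x hx
      have hj : L - (m + 1) + 1 = L - m := by omega
      set j := L - (m + 1) with hjdef
      have hjL : j < L := by omega
      have ih' := ih (by omega)
      rw [← hj] at ih'
      calc ∑ y ∈ R.filter (fun y => f j y = f j x), ∏ i ∈ Ico j L, φ i (f (i + 1) y)
          = ∑ c ∈ (R.filter (fun y => f j y = f j x)).image (f (j + 1)),
              ∑ y ∈ (R.filter (fun y => f j y = f j x)).filter (fun y => f (j + 1) y = c),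
                ∏ i ∈ Ico j L, φ i (f (i + 1) y) := by
            rw [Finset.sum_fiberwise_of_maps_to]
            intro y hy
            exact mem_image_of_mem _ hy
        _ ≤ ∑ c ∈ (R.filter (fun y => f j y = f j x)).image (f (j + 1)), φ j c := by
            apply Finset.sum_le_sum
            intro c hc
            obtain ⟨z, hz, rfl⟩ := mem_image.mp hc
            have hzR : z ∈ R := (mem_filter.mp hz).1
            calc ∑ y ∈ (R.filter (fun y => f j y = f j x)).filter (fun y => f (j + 1) y = f (j + 1) z),
                    ∏ i ∈ Ico j L, φ i (f (i + 1) y)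
                = ∑ y ∈ (R.filter (fun y => f j y = f j x)).filter (fun y => f (j + 1) y = f (j + 1) z),
                    φ j (f (j + 1) z) * ∏ i ∈ Ico (j + 1) L, φ i (f (i + 1) y) := by
                  apply Finset.sum_congr rfl
                  intro y hy
                  rw [Finset.prod_eq_prod_Ico_succ_bot hjL, (mem_filter.mp hy).2]
              _ ≤ ∑ y ∈ R.filter (fun y => f (j + 1) y = f (j + 1) z),
                    φ j (f (j + 1) z) * ∏ i ∈ Ico (j + 1) L, φ i (f (i + 1) y) := by
                  apply Finset.sum_le_sum_of_subset_of_nonneg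
                  · intro y hy
                    simp only [mem_filter] at hy ⊢
                    exact ⟨hy.1.1, hy.2⟩
                  · intro y _ _
                    exact mul_nonneg (hφ _ _) (Finset.prod_nonneg fun i _ => hφ _ _)
              _ = φ j (f (j + 1) z) * ∑ y ∈ R.filter (fun y => f (j + 1) y = f (j + 1) z),
                    ∏ i ∈ Ico (j + 1) L, φ i (f (i + 1) y) := by
                  rw [Finset.mul_sum]
              _ ≤ φ j (f (j + 1) z) * 1 := by
                  apply mul_le_mul_of_nonneg_left (ih' z hzR) (hφ _ _)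
              _ = φ j (f (j + 1) z) := mul_one _
        _ ≤ 1 := hsum j hjL x hx
  rcases R.eq_empty_or_nonempty with h | ⟨x, hx⟩
  · subst h; simp
  · have := key L le_rfl x hx
    rw [Nat.sub_self, Nat.Ico_zero_eq_range] at this
    have hR : R.filter (fun y => f 0 y = f 0 x) = R := by
      apply Finset.filter_true_of_mem
      intro y hy
      exact hroot y hy x hx
    rwa [hR] at this

end Pool.Agent.Helper17
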