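import Mathlib
import Pool.Agent.Helper17.Kraft

set_option autoImplicit false

namespace Pool.Agent.Helper17

open Finset

/-- number of elements of `S` congruent to `z` modulo `p ^ j` -/
def cnt (S : Finset ℤ) (p j : ℕ) (z : ℤ) : ℕ :=
  (S.filter (fun y => y % (p : ℤ) ^ j = z % (p : ℤ) ^ j)).card

theorem emod_pow_of_succ {p j : ℕ} {x y : ℤ} (h : x % (p : ℤ) ^ (j + 1) = y % (p : ℤ) ^ (j + 1)) :
    x % (p : ℤ) ^ j = y % (p : ℤ) ^ j := by
  have : Int.ModEq ((p : ℤ) ^ (j + 1)) x y := h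
  exact this.of_dvd (pow_dvd_pow _ (Nat.le_succ j))

theorem cnt_congr {S : Finset ℤ} {p j : ℕ} {x y : ℤ} (h : x % (p : ℤ) ^ j = y % (p : ℤ) ^ j) :
    cnt S p j x = cnt S p j y := by
  unfold cnt
  rw [h]

theorem cnt_emod_self (S : Finset ℤ) (p j : ℕ) (x : ℤ) :
    cnt S p j (x % (p : ℤ) ^ j) = cnt S p j x :=
  cnt_congr (Int.emod_emod_of_dvd _ dvd_rfl)

theorem cnt_emod_succ (S : Finset ℤ) (p j : ℕ) (x : ℤ) :
    cnt S p j (x % (p : ℤ) ^ (j + 1)) = cnt S p j x :=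
  cnt_congr (Int.emod_emod_of_dvd _ (pow_dvd_pow _ (Nat.le_succ j)))

theorem cnt_succ_le (S : Finset ℤ) (p j : ℕ) (x : ℤ) : cnt S p (j + 1) x ≤ cnt S p j x := by
  apply Finset.card_le_card
  intro y hy
  simp only [mem_filter] at hy ⊢
  exact ⟨hy.1, emod_pow_of_succ hy.2⟩

theorem cnt_antitone (S : Finset ℤ) (p : ℕ) (x : ℤ) : Antitone (fun j => cnt S p j x) :=
  antitone_nat_of_succ_le (fun j => cnt_succ_le S p j x)

theorem cnt_zero (S : Finset ℤ) (p : ℕ) (x : ℤ) : cnt S p 0 x = S.card := by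
  unfold cnt
  congr 1
  apply Finset.filter_true_of_mem
  intro y _
  simp

theorem cnt_pos {S : Finset ℤ} {p j : ℕ} {x : ℤ} (hx : x ∈ S) : 0 < cnt S p j x := by
  apply Finset.card_pos.mpr
  exact ⟨x, mem_filter.mpr ⟨hx, rfl⟩⟩

/-- if `c` and `c'` are different classes modulo `p ^ (j+1)` inside the class of `x`. -/
theorem cnt_add_le {S : Finset ℤ} {p j : ℕ} {c c' : ℤ} (h : c % (p : ℤ) ^ j = c' % (p : ℤ) ^ j)
    (hne : c % (p : ℤ) ^ (j + 1) ≠ c' % (p : ℤ) ^ (j + 1)) :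
    cnt S p (j + 1) c + cnt S p (j + 1) c' ≤ cnt S p j c := by
  unfold cnt
  rw [← Finset.card_union_of_disjoint]
  · apply Finset.card_le_card
    intro y hy
    simp only [mem_union, mem_filter] at hy ⊢
    rcases hy with hy | hy
    · exact ⟨hy.1, emod_pow_of_succ hy.2⟩
    · exact ⟨hy.1, (emod_pow_of_succ hy.2).trans h.symm⟩
  · rw [Finset.disjoint_left]
    intro y hy hy'
    simp only [mem_filter] at hy hy'
    exact hne (hy.2.symm.trans hy'.2)

theorem sum_cnt_le {S : Finset ℤ} {p j : ℕ} {x : ℤ} (V : Finset ℤ)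
    (hV : ∀ c ∈ V, c % (p : ℤ) ^ (j + 1) = c)
    (hV' : ∀ c ∈ V, c % (p : ℤ) ^ j = x % (p : ℤ) ^ j) :
    ∑ c ∈ V, cnt S p (j + 1) c ≤ cnt S p j x := by
  unfold cnt
  rw [← Finset.card_biUnion]
  · apply Finset.card_le_card
    intro y hy
    simp only [mem_biUnion, mem_filter] at hy ⊢
    obtain ⟨c, hc, hyS, hyc⟩ := hy
    exact ⟨hyS, (emod_pow_of_succ hyc).trans (hV' c hc)⟩
  · intro c hc c' hc' hne
    rw [Function.onFun, Finset.disjoint_left]
    intro y hy hy'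
    simp only [mem_filter] at hy hy'
    apply hne
    rw [← hV c hc, ← hV c' hc', ← hy.2, hy'.2]

/-- telescoping: number of drops by a factor `q`. -/
theorem drop_count (g : ℕ → ℝ) (q : ℝ) (hq : 0 ≤ q) (hg : ∀ j, g (j + 1) ≤ g j)
    (L : ℕ) :
    g L ≤ q ^ ((range L).filter (fun j => g (j + 1) ≤ q * g j)).card * g 0 := by
  classical
  induction L with
  | zero => simp
  | succ L ih =>
    rw [Finset.range_add_one, Finset.filter_insert]
    split_ifs with h
    · rw [Finset.card_insert_of_notMem (by simp)]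
      calc g (L + 1) ≤ q * g L := h
        _ ≤ q * (q ^ ((range L).filter (fun j => g (j + 1) ≤ q * g j)).card * g 0) :=
          mul_le_mul_of_nonneg_left ih hq
        _ = _ := by ring
    · exact (hg L).trans ih

/-- `x` is free at level `j` -/
def Free (b : ℝ) (S : Finset ℤ) (p j : ℕ) (x : ℤ) : Prop :=
  (cnt S p (j + 1) x : ℝ) ≤ (1 - b) * cnt S p j x

/-- `x` is light at level `j` -/
def Light (b : ℝ) (S : Finset ℤ) (p j : ℕ) (x : ℤ) : Prop :=
  (cnt S p (j + 1) x : ℝ) ≤ b * cnt S p j x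

theorem Free.congr {b : ℝ} {S : Finset ℤ} {p j : ℕ} {x y : ℤ}
    (h : x % (p : ℤ) ^ (j + 1) = y % (p : ℤ) ^ (j + 1)) : Free b S p j x ↔ Free b S p j y := by
  unfold Free
  rw [cnt_congr h, cnt_congr (emod_pow_of_succ h)]

theorem Light.congr {b : ℝ} {S : Finset ℤ} {p j : ℕ} {x y : ℤ}
    (h : x % (p : ℤ) ^ (j + 1) = y % (p : ℤ) ^ (j + 1)) : Light b S p j x ↔ Light b S p j y := by
  unfold Light
  rw [cnt_congr h, cnt_congr (emod_pow_of_succ h)]

/-- if `c` is not free and `c'` is a different class below the same class, then `c'` is light -/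
theorem light_of_not_free {b : ℝ} {S : Finset ℤ} {p j : ℕ} {c c' : ℤ}
    (h : c % (p : ℤ) ^ j = c' % (p : ℤ) ^ j)
    (hne : c % (p : ℤ) ^ (j + 1) ≠ c' % (p : ℤ) ^ (j + 1)) (hf : ¬ Free b S p j c) :
    Light b S p j c' := by
  have h1 := cnt_add_le (S := S) h hne
  have h1' : (cnt S p (j + 1) c : ℝ) + cnt S p (j + 1) c' ≤ cnt S p j c := by exact_mod_cast h1
  unfold Free at hf
  push Not at hf
  unfold Light
  rw [← cnt_congr h]
  nlinarith

/-- two different classes below the same class cannot both be non-free. -/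
theorem eq_of_not_free {b : ℝ} (hb : b ≤ 1 / 2) {S : Finset ℤ} {p j : ℕ} {c c' : ℤ}
    (h : c % (p : ℤ) ^ j = c' % (p : ℤ) ^ j)
    (hf : ¬ Free b S p j c) (hf' : ¬ Free b S p j c') :
    c % (p : ℤ) ^ (j + 1) = c' % (p : ℤ) ^ (j + 1) := by
  by_contra hne
  have h1 := cnt_add_le (S := S) h hne
  have h1' : (cnt S p (j + 1) c : ℝ) + cnt S p (j + 1) c' ≤ cnt S p j c := by exact_mod_cast h1
  unfold Free at hf hf'
  push Not at hf hf'
  rw [← cnt_congr h] at hf'
  have : (0 : ℝ) ≤ cnt S p j c := by positivity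
  nlinarith

end Pool.Agent.Helper17
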