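import Mathlib
import Pool.Agent.Helper17.Tree

set_option autoImplicit false

namespace Pool.Agent.Helper17

open Finset Classical

/-- a large level beyond which all classes are singletons -/
theorem exists_level (U : Finset ℤ) {p : ℕ} (hp : 2 ≤ p) :
    ∃ L : ℕ, ∀ j, L ≤ j → ∀ x ∈ U, ∀ y ∈ U, x % (p : ℤ) ^ j = y % (p : ℤ) ^ j → x = y := by
  obtain ⟨M, hM⟩ : ∃ M : ℕ, ∀ x ∈ U, ∀ y ∈ U, (x - y).natAbs < M := by
    refine ⟨(U ×ˢ U).sup (fun z => (z.1 - z.2).natAbs) + 1, ?_⟩
    intro x hx y hy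
    have := Finset.le_sup (s := U ×ˢ U) (f := fun z : ℤ × ℤ => (z.1 - z.2).natAbs)
      (mem_product.mpr ⟨hx, hy⟩ : (x, y) ∈ U ×ˢ U)
    simp only at this
    omega
  refine ⟨M, ?_⟩
  intro j hj x hx y hy h
  have h1 : ((p : ℤ) ^ j) ∣ (x - y) := Int.ModEq.dvd (show Int.ModEq ((p : ℤ) ^ j) y x from h.symm)
  by_contra hne
  have h2 : (x - y) ≠ 0 := sub_ne_zero.mpr hne
  have h3 : p ^ j ≤ (x - y).natAbs := by
    have : (p ^ j) ∣ (x - y).natAbs := by
      have := Int.natAbs_dvd_natAbs.mpr h1
      simpa [Int.natAbs_pow] using this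
    exact Nat.le_of_dvd (Int.natAbs_pos.mpr h2) this
  have h4 : j < p ^ j := Nat.lt_pow_self (by omega)
  have h5 := hM x hx y hy
  omega

/-- weight of the levels in `J` -/
noncomputable def wt (S : Finset ℤ) (p : ℕ) (J : Finset ℕ) (x : ℤ) : ℝ :=
  ∏ j ∈ J, ((cnt S p (j + 1) x : ℝ) / cnt S p j x)

/-- the factors used in Lemma A -/
noncomputable def phiA (b : ℝ) (S S' : Finset ℤ) (p : ℕ) (J : Finset ℕ) (z : ℤ) (j : ℕ) (c : ℤ) : ℝ :=
  if j ∈ J then (cnt S p (j + 1) c : ℝ) / cnt S p j c
  else (if Light b S p j c then 1 / 2 else 1) * (if Light b S' p j (z - c) then 1 / 2 else 1)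

theorem phiA_nonneg (b : ℝ) (S S' : Finset ℤ) (p : ℕ) (J : Finset ℕ) (z : ℤ) (j : ℕ) (c : ℤ) :
    0 ≤ phiA b S S' p J z j c := by
  unfold phiA
  split_ifs <;> positivity

theorem sub_emod_congr {m z x y : ℤ} (h : x % m = y % m) : (z - x) % m = (z - y) % m :=
  Int.ModEq.sub (Int.ModEq.refl z) h

theorem phiA_congr {b : ℝ} {S S' : Finset ℤ} {p : ℕ} {J : Finset ℕ} {z : ℤ} {j : ℕ} {x y : ℤ}
    (h : x % (p : ℤ) ^ (j + 1) = y % (p : ℤ) ^ (j + 1)) :
    phiA b S S' p J z j x = phiA b S S' p J z j y := by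
  unfold phiA
  rw [cnt_congr h, cnt_congr (emod_pow_of_succ h), Light.congr h, Light.congr (sub_emod_congr h)]

theorem lemmaA {b : ℝ} (hb : b ≤ 1 / 2) (S S' : Finset ℤ) {p : ℕ}
    (J : Finset ℕ) (z : ℤ) (R : Finset ℤ) (hRS : R ⊆ S)
    (hfree : ∀ x ∈ R, ∀ j, Free b S p j x → Free b S' p j (z - x) → j ∈ J)
    (L : ℕ) (hL : ∀ x ∈ R, ∀ y ∈ R, x % (p : ℤ) ^ L = y % (p : ℤ) ^ L → x = y) :
    ∑ x ∈ R, ∏ j ∈ range L, phiA b S S' p J z j x ≤ 1 := by
  have hk := kraft R (fun j x => x % (p : ℤ) ^ j) (phiA b S S' p J z) L hL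
    (phiA_nonneg b S S' p J z) (fun j x _ y _ h => emod_pow_of_succ h) ?_ ?_
  · refine le_trans (le_of_eq ?_) hk
    apply Finset.sum_congr rfl
    intro x _
    apply Finset.prod_congr rfl
    intro j _
    apply phiA_congr
    exact (Int.emod_emod_of_dvd _ dvd_rfl).symm
  · intro j _ x hx
    set V := (R.filter (fun y => y % (p : ℤ) ^ j = x % (p : ℤ) ^ j)).image
      (fun y => y % (p : ℤ) ^ (j + 1)) with hV
    have hVmem : ∀ c ∈ V, ∃ y ∈ R, y % (p : ℤ) ^ (j + 1) = c ∧ y % (p : ℤ) ^ j = x % (p : ℤ) ^ j := by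
      intro c hc
      obtain ⟨y, hy, rfl⟩ := mem_image.mp hc
      exact ⟨y, (mem_filter.mp hy).1, rfl, (mem_filter.mp hy).2⟩
    have hV1 : ∀ c ∈ V, c % (p : ℤ) ^ (j + 1) = c := by
      intro c hc
      obtain ⟨y, _, rfl, _⟩ := hVmem c hc
      exact Int.emod_emod_of_dvd _ dvd_rfl
    have hV2 : ∀ c ∈ V, c % (p : ℤ) ^ j = x % (p : ℤ) ^ j := by
      intro c hc
      obtain ⟨y, _, rfl, h⟩ := hVmem c hc
      rw [← h]
      exact Int.emod_emod_of_dvd _ (pow_dvd_pow _ (Nat.le_succ j))
    by_cases hjJ : j ∈ J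
    · have h1 : ∀ c ∈ V, phiA b S S' p J z j c = (cnt S p (j + 1) c : ℝ) / cnt S p j x := by
        intro c hc
        unfold phiA
        rw [if_pos hjJ, cnt_congr (hV2 c hc)]
      rw [Finset.sum_congr rfl h1, ← Finset.sum_div]
      have hpos : (0 : ℝ) < cnt S p j x := by exact_mod_cast cnt_pos (hRS hx)
      rw [div_le_one hpos]
      exact_mod_cast sum_cnt_le V hV1 hV2
    · have hle1 : ∀ c, phiA b S S' p J z j c ≤ 1 := by
        intro c
        unfold phiA
        rw [if_neg hjJ]
        split_ifs <;> norm_num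
      have hlight1 : ∀ c, Light b S p j c → phiA b S S' p J z j c ≤ 1 / 2 := by
        intro c hc
        unfold phiA
        rw [if_neg hjJ, if_pos hc]
        split_ifs <;> norm_num
      have hlight2 : ∀ c, Light b S' p j (z - c) → phiA b S S' p J z j c ≤ 1 / 2 := by
        intro c hc
        unfold phiA
        rw [if_neg hjJ, if_pos hc]
        split_ifs <;> norm_num
      -- each class in `V` is of type 1 or 2
      have htype : ∀ c ∈ V, ¬ Free b S p j c ∨ ¬ Free b S' p j (z - c) := by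
        intro c hc
        obtain ⟨y, hyR, hyc, _⟩ := hVmem c hc
        have e1 : c % (p : ℤ) ^ (j + 1) = y % (p : ℤ) ^ (j + 1) := by
          rw [← hyc]; exact Int.emod_emod_of_dvd _ dvd_rfl
        by_contra hcon
        push Not at hcon
        apply hjJ
        exact hfree y hyR j ((Free.congr e1).mp hcon.1) ((Free.congr (sub_emod_congr e1)).mp hcon.2)
      have hsame : ∀ c ∈ V, ∀ c' ∈ V, c % (p : ℤ) ^ j = c' % (p : ℤ) ^ j := by
        intro c hc c' hc'
        rw [hV2 c hc, hV2 c' hc']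
      have h11 : ∀ c ∈ V, ∀ c' ∈ V, ¬ Free b S p j c → ¬ Free b S p j c' → c = c' := by
        intro c hc c' hc' h1 h2
        have := eq_of_not_free hb (hsame c hc c' hc') h1 h2
        rwa [hV1 c hc, hV1 c' hc'] at this
      have h22 : ∀ c ∈ V, ∀ c' ∈ V, ¬ Free b S' p j (z - c) → ¬ Free b S' p j (z - c') → c = c' := by
        intro c hc c' hc' h1 h2
        have := eq_of_not_free hb (sub_emod_congr (hsame c hc c' hc')) h1 h2
        have h3 := sub_emod_congr (z := z) this
        simp only [sub_sub_cancel] at h3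
        rwa [hV1 c hc, hV1 c' hc'] at h3
      have hl1 : ∀ c ∈ V, ∀ c' ∈ V, c ≠ c' → ¬ Free b S p j c → phiA b S S' p J z j c' ≤ 1 / 2 := by
        intro c hc c' hc' hne h1
        apply hlight1
        apply light_of_not_free (hsame c hc c' hc') _ h1
        rwa [hV1 c hc, hV1 c' hc']
      have hl2 : ∀ c ∈ V, ∀ c' ∈ V, c ≠ c' → ¬ Free b S' p j (z - c) → phiA b S S' p J z j c' ≤ 1 / 2 := by
        intro c hc c' hc' hne h1
        apply hlight2
        apply light_of_not_free (sub_emod_congr (hsame c hc c' hc')) _ h1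
        intro h
        have h3 := sub_emod_congr (z := z) h
        simp only [sub_sub_cancel] at h3
        rw [hV1 c hc, hV1 c' hc'] at h3
        exact hne h3
      by_cases hex : ∃ c ∈ V, ∃ c' ∈ V, c ≠ c' ∧ ¬ Free b S p j c
      · obtain ⟨c, hc, c', hc', hne, h1⟩ := hex
        have h2' : ¬ Free b S' p j (z - c') := by
          rcases htype c' hc' with h | h
          · exact absurd (h11 c hc c' hc' h1 h) hne
          · exact h
        have hsub : V ⊆ {c, c'} := by
          intro d hd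
          rcases htype d hd with h | h
          · rw [h11 d hd c hc h h1]; simp
          · rw [h22 d hd c' hc' h h2']; simp
        calc ∑ d ∈ V, phiA b S S' p J z j d ≤ ∑ d ∈ ({c, c'} : Finset ℤ), phiA b S S' p J z j d :=
              Finset.sum_le_sum_of_subset_of_nonneg hsub (fun d _ _ => phiA_nonneg _ _ _ _ _ _ _ _)
          _ = phiA b S S' p J z j c + phiA b S S' p J z j c' := Finset.sum_pair hne
          _ ≤ 1 / 2 + 1 / 2 := add_le_add (hl2 c' hc' c hc hne.symm h2') (hl1 c hc c' hc' hne h1)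
          _ = 1 := by norm_num
      · push Not at hex
        -- then V has at most one element
        have hcard : ∀ c ∈ V, ∀ c' ∈ V, c = c' := by
          intro c hc c' hc'
          by_contra hne
          have hf1 : Free b S p j c := hex c hc c' hc' hne
          have hf2 : Free b S p j c' := hex c' hc' c hc (Ne.symm hne)
          have g1 : ¬ Free b S' p j (z - c) := by
            rcases htype c hc with h | h
            · exact absurd hf1 h
            · exact h
          have g2 : ¬ Free b S' p j (z - c') := by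
            rcases htype c' hc' with h | h
            · exact absurd hf2 h
            · exact h
          exact hne (h22 c hc c' hc' g1 g2)
        rcases V.eq_empty_or_nonempty with hVe | ⟨c, hc⟩
        · rw [hVe]; simp
        · have : V = {c} := by
            ext d
            simp only [mem_singleton]
            exact ⟨fun hd => hcard d hd c hc, fun hd => hd ▸ hc⟩
          rw [this, Finset.sum_singleton]
          exact hle1 c
  · intro x _ y _
    simp

end Pool.Agent.Helper17
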