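import Mathlib
import Pool.Agent.Helper17.LemmaA

set_option autoImplicit false

namespace Pool.Agent.Helper17

open Finset Classical

/-- number of drops by a factor `q` of a count function -/
theorem cnt_drop {S : Finset ℤ} {p : ℕ} {x : ℤ} (hx : x ∈ S) {q : ℝ} (hq : 0 ≤ q) (L : ℕ) :
    1 ≤ q ^ ((range L).filter (fun j => (cnt S p (j + 1) x : ℝ) ≤ q * cnt S p j x)).card
      * (S.card : ℝ) := by
  have h := drop_count (fun j => (cnt S p j x : ℝ)) q hq
    (fun j => by exact_mod_cast cnt_succ_le S p j x) L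
  simp only [cnt_zero] at h
  refine le_trans ?_ h
  exact_mod_cast cnt_pos hx

theorem ratio_le_one (S : Finset ℤ) (p j : ℕ) (x : ℤ) :
    (cnt S p (j + 1) x : ℝ) / cnt S p j x ≤ 1 := by
  apply div_le_one_of_le₀
  · exact_mod_cast cnt_succ_le S p j x
  · positivity

theorem prod_phiA_ge {b : ℝ} (hb0 : 0 ≤ b) (S S' : Finset ℤ) {p : ℕ} (J : Finset ℕ) (z : ℤ)
    (L : ℕ) {x : ℤ} (hx : x ∈ S) (hx' : z - x ∈ S') {n E τ : ℝ} (hE1 : 0 < E)
    (hSn : (S.card : ℝ) ≤ n) (hSn' : (S'.card : ℝ) ≤ n)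
    (hE : ∀ m : ℕ, 1 ≤ b ^ m * n → (2 : ℝ) ^ m ≤ E) (hτ : 0 ≤ τ) (hw : τ ≤ wt S p J x) :
    τ / E ^ 2 ≤ ∏ j ∈ range L, phiA b S S' p J z j x := by
  have hstep : ∀ j, ((if j ∈ J then (cnt S p (j + 1) x : ℝ) / cnt S p j x else 1) *
      (if Light b S p j x then 1 / 2 else 1)) * (if Light b S' p j (z - x) then 1 / 2 else 1)
      ≤ phiA b S S' p J z j x := by
    intro j
    unfold phiA
    have hr : (0 : ℝ) ≤ (cnt S p (j + 1) x : ℝ) / cnt S p j x := by positivity
    split_ifs <;> nlinarith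
  have h1 : (∏ j ∈ range L, (if j ∈ J then (cnt S p (j + 1) x : ℝ) / cnt S p j x else 1)) ≥
      wt S p J x := by
    rw [← Finset.prod_filter]
    unfold wt
    rw [← Finset.prod_filter_mul_prod_filter_not J (fun j => j ∈ range L)]
    have e1 : (range L).filter (fun j => j ∈ J) = J.filter (fun j => j ∈ range L) := by
      ext j; simp [and_comm]
    rw [e1]
    apply mul_le_of_le_one_right
    · exact Finset.prod_nonneg (fun j _ => by positivity)
    · exact Finset.prod_le_one (fun j _ => by positivity) (fun j _ => ratio_le_one S p j x)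
  have hlight : ∀ (U : Finset ℤ) (y : ℤ), y ∈ U → (U.card : ℝ) ≤ n →
      1 / E ≤ ∏ j ∈ range L, (if Light b U p j y then (1 / 2 : ℝ) else 1) := by
    intro U y hy hU
    rw [Finset.prod_ite, Finset.prod_const_one, mul_one, Finset.prod_const]
    have h2 := cnt_drop (p := p) hy hb0 L
    have h3 := hE _ (h2.trans (mul_le_mul_of_nonneg_left hU (by positivity)))
    have h4 : (range L).filter (fun j => (cnt U p (j + 1) y : ℝ) ≤ b * cnt U p j y) =
      (range L).filter (fun j => Light b U p j y) := rfl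
    rw [h4] at h3
    rw [one_div, one_div, inv_pow]
    exact inv_anti₀ (by positivity) h3
  calc τ / E ^ 2 = τ * (1 / E) * (1 / E) := by field_simp
    _ ≤ (∏ j ∈ range L, (if j ∈ J then (cnt S p (j + 1) x : ℝ) / cnt S p j x else 1)) *
        (∏ j ∈ range L, (if Light b S p j x then (1 / 2 : ℝ) else 1)) *
        (∏ j ∈ range L, (if Light b S' p j (z - x) then (1 / 2 : ℝ) else 1)) := by
          apply mul_le_mul
          · apply mul_le_mul (hw.trans h1) (hlight S x hx hSn) (by positivity)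
            exact (hτ.trans hw).trans h1
          · exact hlight S' (z - x) hx' hSn'
          · positivity
          · apply mul_nonneg ((hτ.trans hw).trans h1)
            exact (by positivity : (0 : ℝ) ≤ 1 / E).trans (hlight S x hx hSn)
    _ = ∏ j ∈ range L, (((if j ∈ J then (cnt S p (j + 1) x : ℝ) / cnt S p j x else 1) *
      (if Light b S p j x then 1 / 2 else 1)) * (if Light b S' p j (z - x) then 1 / 2 else 1)) := by
          rw [Finset.prod_mul_distrib, Finset.prod_mul_distrib]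
    _ ≤ _ := by
          apply Finset.prod_le_prod
          · intro j _
            have hr : (0 : ℝ) ≤ (cnt S p (j + 1) x : ℝ) / cnt S p j x := by positivity
            split_ifs <;> positivity
          · intro j _
            exact hstep j

/-- Counting form of Lemma A. -/
theorem countA {b : ℝ} (hb0 : 0 ≤ b) (hb : b ≤ 1 / 2) (S S' : Finset ℤ) {p : ℕ} (hp : 2 ≤ p)
    (J : Finset ℕ) {n E τ : ℝ} (hE1 : 0 < E)
    (hSn : (S.card : ℝ) ≤ n) (hSn' : (S'.card : ℝ) ≤ n)
    (hE : ∀ m : ℕ, 1 ≤ b ^ m * n → (2 : ℝ) ^ m ≤ E) (hτ : 0 ≤ τ)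
    (G : Finset (ℤ × ℤ)) (hG1 : ∀ g ∈ G, g.1 ∈ S ∧ g.2 ∈ S')
    (hG2 : ∀ g ∈ G, ∀ j, Free b S p j g.1 → Free b S' p j g.2 → j ∈ J)
    (hG3 : ∀ g ∈ G, τ ≤ wt S p J g.1) (T : Finset ℤ) (hT : ∀ g ∈ G, g.1 + g.2 ∈ T) :
    (G.card : ℝ) * τ ≤ E ^ 2 * T.card := by
  obtain ⟨L, hL⟩ := exists_level S hp
  have hz : ∀ z ∈ T, ((G.filter (fun g => g.1 + g.2 = z)).card : ℝ) * (τ / E ^ 2) ≤ 1 := by
    intro z _
    set Gz := G.filter (fun g => g.1 + g.2 = z) with hGz
    have hmem : ∀ g ∈ Gz, g ∈ G ∧ g.1 + g.2 = z := fun g hg => mem_filter.mp hg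
    set R := Gz.image Prod.fst with hR
    have hRmem : ∀ x ∈ R, (x, z - x) ∈ G := by
      intro x hx
      obtain ⟨g, hg, rfl⟩ := mem_image.mp hx
      have h1 := hmem g hg
      have : (g.1, z - g.1) = g := by
        ext
        · rfl
        · simp only; linarith [h1.2]
      rw [this]; exact h1.1
    have hcard : Gz.card = R.card := by
      rw [hR, Finset.card_image_of_injOn]
      intro g hg g' hg' h
      have h1 := hmem g hg
      have h2 := hmem g' hg'
      ext
      · exact h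
      · have : g.1 = g'.1 := h
        linarith [h1.2, h2.2]
    have hA := lemmaA hb S S' (p := p) J z R (fun x hx => (hG1 _ (hRmem x hx)).1)
      (fun x hx j h1 h2 => hG2 _ (hRmem x hx) j h1 h2) L
      (fun x hx y hy h => hL L le_rfl x (hG1 _ (hRmem x hx)).1 y (hG1 _ (hRmem y hy)).1 h)
    rw [hcard]
    calc (R.card : ℝ) * (τ / E ^ 2) = ∑ x ∈ R, τ / E ^ 2 := by rw [Finset.sum_const, nsmul_eq_mul]
      _ ≤ ∑ x ∈ R, ∏ j ∈ range L, phiA b S S' p J z j x := by
          apply Finset.sum_le_sum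
          intro x hx
          exact prod_phiA_ge hb0 S S' J z L (hG1 _ (hRmem x hx)).1 (hG1 _ (hRmem x hx)).2 hE1
            hSn hSn' hE hτ (hG3 _ (hRmem x hx))
      _ ≤ 1 := hA
  have hsum : (G.card : ℝ) = ∑ z ∈ T, ((G.filter (fun g => g.1 + g.2 = z)).card : ℝ) := by
    exact_mod_cast Finset.card_eq_sum_card_fiberwise (fun g hg => hT g hg)
  have hE2 : 0 < E ^ 2 := by positivity
  have : (G.card : ℝ) * (τ / E ^ 2) ≤ T.card := by
    rw [hsum, Finset.sum_mul]
    calc _ ≤ ∑ z ∈ T, (1 : ℝ) := Finset.sum_le_sum hz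
      _ = _ := by simp
  calc (G.card : ℝ) * τ = ((G.card : ℝ) * (τ / E ^ 2)) * E ^ 2 := by field_simp
    _ ≤ T.card * E ^ 2 := mul_le_mul_of_nonneg_right this hE2.le
    _ = _ := by ring

/-- the factors used in Lemma B -/
noncomputable def phiB (S : Finset ℤ) (p : ℕ) (J : Finset ℕ) (j : ℕ) (c : ℤ) : ℝ :=
  if j ∈ J then 1 else (cnt S p (j + 1) c : ℝ) / cnt S p j c

theorem prod_ratio {S : Finset ℤ} {p : ℕ} {x : ℤ} (hx : x ∈ S) (L : ℕ) :
    ∏ j ∈ range L, ((cnt S p (j + 1) x : ℝ) / cnt S p j x) = (cnt S p L x : ℝ) / S.card := by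
  induction L with
  | zero =>
    have : (0 : ℝ) < S.card := by exact_mod_cast Finset.card_pos.mpr ⟨x, hx⟩
    simp [cnt_zero, this.ne']
  | succ L ih =>
    rw [Finset.prod_range_succ, ih]
    have h1 : (0 : ℝ) < cnt S p L x := by exact_mod_cast cnt_pos hx
    field_simp

theorem lemmaB (S : Finset ℤ) {p : ℕ} (hp : 2 ≤ p) (J : Finset ℕ) (R : Finset ℤ) (hRS : R ⊆ S)
    (hR : ∀ j ∈ J, ∀ x ∈ R, ∀ y ∈ R, x % (p : ℤ) ^ j = y % (p : ℤ) ^ j →
      x % (p : ℤ) ^ (j + 1) = y % (p : ℤ) ^ (j + 1)) {τ : ℝ} (hτn : 0 ≤ τ)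
    (hw : ∀ x ∈ R, wt S p J x < τ) :
    (R.card : ℝ) ≤ τ * S.card := by
  rcases R.eq_empty_or_nonempty with hRe | ⟨x0, hx0⟩
  · rw [hRe]; simp only [Finset.card_empty, Nat.cast_zero]; positivity
  obtain ⟨L0, hL0⟩ := exists_level S hp
  set L := max L0 (J.sup id + 1) with hLdef
  have hJL : ∀ j ∈ J, j < L := by
    intro j hj
    have : j ≤ J.sup id := Finset.le_sup (f := id) hj
    omega
  have hk := kraft R (fun j x => x % (p : ℤ) ^ j) (phiB S p J) L
    (fun x hx y hy h => hL0 L (le_max_left _ _) x (hRS hx) y (hRS hy) h)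
    (fun j c => by unfold phiB; split_ifs <;> positivity)
    (fun j x _ y _ h => emod_pow_of_succ h) ?_ ?_
  · have h1 : ∀ x ∈ R, ∏ j ∈ range L, phiB S p J j (x % (p : ℤ) ^ (j + 1)) ≥ 1 / (τ * S.card) := by
      intro x hx
      have hxS := hRS hx
      have hScard : (0 : ℝ) < S.card := by exact_mod_cast Finset.card_pos.mpr ⟨x, hxS⟩
      have e1 : ∏ j ∈ range L, phiB S p J j (x % (p : ℤ) ^ (j + 1)) =
          ∏ j ∈ (range L).filter (fun j => ¬ j ∈ J), ((cnt S p (j + 1) x : ℝ) / cnt S p j x) := by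
        rw [Finset.prod_filter]
        apply Finset.prod_congr rfl
        intro j _
        unfold phiB
        rw [cnt_emod_self, cnt_emod_succ]
        by_cases hj : j ∈ J <;> simp [hj]
      have e2 : wt S p J x = ∏ j ∈ (range L).filter (fun j => j ∈ J),
          ((cnt S p (j + 1) x : ℝ) / cnt S p j x) := by
        unfold wt
        apply Finset.prod_congr _ (fun _ _ => rfl)
        ext j
        simp only [mem_filter, mem_range]
        exact ⟨fun hj => ⟨hJL j hj, hj⟩, fun hj => hj.2⟩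
      have e3 := Finset.prod_filter_mul_prod_filter_not (range L) (fun j => j ∈ J)
        (fun j => (cnt S p (j + 1) x : ℝ) / cnt S p j x)
      rw [← e1, ← e2, prod_ratio hxS L] at e3
      have e4 : cnt S p L x = 1 := by
        unfold cnt
        rw [Finset.card_eq_one]
        refine ⟨x, ?_⟩
        ext y
        simp only [mem_filter, mem_singleton]
        constructor
        · rintro ⟨h1, h2⟩
          exact hL0 L (le_max_left _ _) y h1 x hxS h2
        · rintro rfl
          exact ⟨hxS, rfl⟩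
      rw [e4] at e3
      have hwpos : 0 < wt S p J x := by
        unfold wt
        apply Finset.prod_pos
        intro j _
        have h1 : (0 : ℝ) < cnt S p j x := by exact_mod_cast cnt_pos hxS
        have h2 : (0 : ℝ) < cnt S p (j + 1) x := by exact_mod_cast cnt_pos hxS
        positivity
      have hτ := hw x hx
      have hτ0 : 0 < τ := hwpos.trans hτ
      have e5 : ∏ j ∈ range L, phiB S p J j (x % (p : ℤ) ^ (j + 1)) = 1 / (wt S p J x * S.card) := by
        field_simp
        push_cast at e3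
        rw [eq_div_iff hScard.ne'] at e3
        linarith [e3]
      rw [e5]
      apply one_div_le_one_div_of_le
      · positivity
      · exact mul_le_mul_of_nonneg_right hτ.le hScard.le
    have hScard : (0 : ℝ) < S.card := by exact_mod_cast Finset.card_pos.mpr ⟨x0, hRS hx0⟩
    have hwpos : 0 < wt S p J x0 := by
      unfold wt
      apply Finset.prod_pos
      intro j _
      have h1 : (0 : ℝ) < cnt S p j x0 := by exact_mod_cast cnt_pos (hRS hx0)
      have h2 : (0 : ℝ) < cnt S p (j + 1) x0 := by exact_mod_cast cnt_pos (hRS hx0)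
      positivity
    have hτ0 : 0 < τ := hwpos.trans (hw x0 hx0)
    have h2 : (R.card : ℝ) * (1 / (τ * S.card)) ≤ 1 := by
      calc (R.card : ℝ) * (1 / (τ * S.card)) = ∑ x ∈ R, 1 / (τ * S.card) := by
            rw [Finset.sum_const, nsmul_eq_mul]
        _ ≤ _ := Finset.sum_le_sum h1
        _ ≤ 1 := hk
    rw [mul_one_div, div_le_one (by positivity)] at h2
    exact h2
  · intro j _ x hx
    set V := (R.filter (fun y => y % (p : ℤ) ^ j = x % (p : ℤ) ^ j)).image
      (fun y => y % (p : ℤ) ^ (j + 1)) with hV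
    have hVmem : ∀ c ∈ V, ∃ y ∈ R, y % (p : ℤ) ^ (j + 1) = c ∧ y % (p : ℤ) ^ j = x % (p : ℤ) ^ j := by
      intro c hc
      obtain ⟨y, hy, rfl⟩ := mem_image.mp hc
      exact ⟨y, (mem_filter.mp hy).1, rfl, (mem_filter.mp hy).2⟩
    have hV1 : ∀ c ∈ V, c % (p : ℤ) ^ (j + 1) = c := by
      intro c hc
      obtain ⟨y, _, rfl, _⟩ := hVmem c hc
      exact Int.emod_emod_of_dvd _ dvd_rfl
    have hV2 : ∀ c ∈ V, c % (p : ℤ) ^ j = x % (p : ℤ) ^ j := by
      intro c hc
      obtain ⟨y, _, rfl, h⟩ := hVmem c hc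
      rw [← h]
      exact Int.emod_emod_of_dvd _ (pow_dvd_pow _ (Nat.le_succ j))
    by_cases hjJ : j ∈ J
    · have hcard : ∀ c ∈ V, c = x % (p : ℤ) ^ (j + 1) := by
        intro c hc
        obtain ⟨y, hy, rfl, h⟩ := hVmem c hc
        exact hR j hjJ y hy x hx h
      calc ∑ c ∈ V, phiB S p J j c ≤ ∑ c ∈ ({x % (p : ℤ) ^ (j + 1)} : Finset ℤ), phiB S p J j c := by
            apply Finset.sum_le_sum_of_subset_of_nonneg
            · intro c hc; rw [hcard c hc]; simp
            · intro c _ _; unfold phiB; split_ifs <;> positivity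
        _ = 1 := by rw [Finset.sum_singleton]; unfold phiB; rw [if_pos hjJ]
        _ ≤ 1 := le_rfl
    · have h1 : ∀ c ∈ V, phiB S p J j c = (cnt S p (j + 1) c : ℝ) / cnt S p j x := by
        intro c hc
        unfold phiB
        rw [if_neg hjJ, cnt_congr (hV2 c hc)]
      rw [Finset.sum_congr rfl h1, ← Finset.sum_div]
      have hpos : (0 : ℝ) < cnt S p j x := by exact_mod_cast cnt_pos (hRS hx)
      rw [div_le_one hpos]
      exact_mod_cast sum_cnt_le V hV1 hV2
  · intro x _ y _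
    simp

end Pool.Agent.Helper17
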