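import Mathlib
import Pool.Agent.Helper17.Count

set_option autoImplicit false

namespace Pool.Agent.Helper17

open Finset Classical
open scoped Pointwise

/-- exponent of `p` in `a` -/
def vp (p : ℕ) (a : ℤ) : ℕ := a.natAbs.factorization p

theorem pow_vp_dvd (p : ℕ) (a : ℤ) : (p : ℤ) ^ vp p a ∣ a := by
  have h : p ^ (a.natAbs.factorization p) ∣ a.natAbs := Nat.ordProj_dvd _ _
  have := Int.natCast_dvd.mpr h
  unfold vp
  exact_mod_cast this

theorem dvd_of_pow_add_vp {p : ℕ} (hp : p.Prime) {a x : ℤ} (ha : a ≠ 0) {j : ℕ}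
    (h : (p : ℤ) ^ (j + vp p a) ∣ x * a) : (p : ℤ) ^ j ∣ x := by
  have ha' : a.natAbs ≠ 0 := Int.natAbs_ne_zero.mpr ha
  have h1 : p ^ (j + vp p a) ∣ x.natAbs * a.natAbs := by
    have := Int.natAbs_dvd_natAbs.mpr h
    simpa [Int.natAbs_pow, Int.natAbs_mul] using this
  have h2 : p ^ (a.natAbs.factorization p) * (a.natAbs / p ^ (a.natAbs.factorization p)) = a.natAbs :=
    Nat.ordProj_mul_ordCompl_eq_self _ _
  set u := a.natAbs / p ^ (a.natAbs.factorization p) with hu
  have hcop : Nat.Coprime p u := Nat.coprime_ordCompl hp ha'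
  have h3 : p ^ j * p ^ vp p a ∣ (x.natAbs * u) * p ^ vp p a := by
    rw [← pow_add]
    have e : x.natAbs * a.natAbs = (x.natAbs * u) * p ^ vp p a := by
      conv_lhs => rw [← h2]
      unfold vp
      ring
    rwa [e] at h1
  have hpos : 0 < p ^ vp p a := pow_pos hp.pos _
  have h4 : p ^ j ∣ x.natAbs * u := Nat.dvd_of_mul_dvd_mul_right hpos h3
  have h5 : p ^ j ∣ x.natAbs := (hcop.pow_left j).dvd_of_dvd_mul_right h4
  have := Int.natCast_dvd.mpr h5
  exact_mod_cast this

/-- number of pairs whose product is `y` modulo `p ^ r` -/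
def cntP (A : Finset ℤ) (p r : ℕ) (y : ℤ) : ℕ :=
  ((A ×ˢ A).filter (fun g => (g.1 * g.2) % (p : ℤ) ^ r = y % (p : ℤ) ^ r)).card

theorem cntP_congr {A : Finset ℤ} {p j : ℕ} {x y : ℤ} (h : x % (p : ℤ) ^ j = y % (p : ℤ) ^ j) :
    cntP A p j x = cntP A p j y := by
  unfold cntP
  rw [h]

theorem cntP_succ_le (A : Finset ℤ) (p j : ℕ) (x : ℤ) : cntP A p (j + 1) x ≤ cntP A p j x := by
  apply Finset.card_le_card
  intro y hy
  simp only [mem_filter] at hy ⊢
  exact ⟨hy.1, emod_pow_of_succ hy.2⟩

theorem cntP_zero (A : Finset ℤ) (p : ℕ) (x : ℤ) : cntP A p 0 x = A.card ^ 2 := by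
  unfold cntP
  rw [Finset.filter_true_of_mem (by intro y _; simp), Finset.card_product, sq]

theorem cntP_pos {A : Finset ℤ} {p j : ℕ} {x : ℤ} (hx : ∃ g ∈ A ×ˢ A, g.1 * g.2 = x) :
    0 < cntP A p j x := by
  obtain ⟨g, hg, rfl⟩ := hx
  apply Finset.card_pos.mpr
  exact ⟨g, mem_filter.mpr ⟨hg, rfl⟩⟩

theorem cntP_add_le {A : Finset ℤ} {p j : ℕ} {c c' : ℤ} (h : c % (p : ℤ) ^ j = c' % (p : ℤ) ^ j)
    (hne : c % (p : ℤ) ^ (j + 1) ≠ c' % (p : ℤ) ^ (j + 1)) :
    cntP A p (j + 1) c + cntP A p (j + 1) c' ≤ cntP A p j c := by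
  unfold cntP
  rw [← Finset.card_union_of_disjoint]
  · apply Finset.card_le_card
    intro y hy
    simp only [mem_union, mem_filter] at hy ⊢
    rcases hy with hy | hy
    · exact ⟨hy.1, emod_pow_of_succ hy.2⟩
    · exact ⟨hy.1, (emod_pow_of_succ hy.2).trans h.symm⟩
  · rw [Finset.disjoint_left]
    intro y hy hy'
    simp only [mem_filter] at hy hy'
    exact hne (hy.2.symm.trans hy'.2)

theorem exists_levelP (A : Finset ℤ) {p : ℕ} (hp : 2 ≤ p) :
    ∃ L : ℕ, ∀ j, L ≤ j → ∀ g ∈ A ×ˢ A, cntP A p (j + 1) (g.1 * g.2) = cntP A p j (g.1 * g.2) := by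
  obtain ⟨L, hL⟩ := exists_level ((A ×ˢ A).image (fun g => g.1 * g.2)) hp
  refine ⟨L, ?_⟩
  intro j hj g hg
  unfold cntP
  congr 1
  apply Finset.filter_congr
  intro h hh
  constructor
  · intro e; exact emod_pow_of_succ e
  · intro e
    have := hL j hj _ (mem_image_of_mem _ hh) _ (mem_image_of_mem _ hg) e
    rw [this]

theorem dichotomy (A : Finset ℤ) (h0 : (0 : ℤ) ∉ A) {p : ℕ} (hp : p.Prime) {b τ E κ ℓ ℓ2 : ℝ}
    (hb0 : 0 < b) (hb : b ≤ 1 / 2) (hτ : 0 < τ) (hE0 : 0 < E) (hκ : 0 < κ)
    (hE : ∀ m : ℕ, 1 ≤ b ^ m * (A.card : ℝ) → (2 : ℝ) ^ m ≤ E)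
    (hℓ : ∀ m : ℕ, 1 ≤ (1 - b) ^ m * (A.card : ℝ) → (m : ℝ) ≤ ℓ)
    (hℓ2 : ∀ m : ℕ, 1 ≤ (1 / 2 : ℝ) ^ m * (A.card : ℝ) ^ 2 → (m : ℝ) ≤ ℓ2) :
    ∃ F : ℤ → Finset ℕ,
      (∀ g ∈ A ×ˢ A, ((F (g.1 * g.2)).card : ℝ) ≤ ℓ2 * (ℓ / κ)) ∧
      (((A ×ˢ A).filter (fun g => vp p g.2 ∉ F (g.1 * g.2))).card : ℝ) ≤
        (κ * ℓ + τ) * (A.card : ℝ) ^ 2 + E ^ 2 / τ * ((A + A).card : ℝ) := by
  rcases A.eq_empty_or_nonempty with hAe | hAne
  · subst hAe
    refine ⟨fun _ => ∅, by simp, by simp⟩
  have hp2 : 2 ≤ p := hp.two_le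
  have hn : (0 : ℝ) < A.card := by exact_mod_cast hAne.card_pos
  obtain ⟨L, hL⟩ := exists_level A hp2
  obtain ⟨L1, hL1⟩ := exists_levelP A hp2
  -- free levels are below `L`
  have hfreeL : ∀ x ∈ A, ∀ j, Free b A p j x → j < L := by
    intro x hx j hf
    by_contra hj
    push Not at hj
    have e : ∀ i, L ≤ i → cnt A p i x = 1 := by
      intro i hi
      unfold cnt
      rw [Finset.card_eq_one]
      refine ⟨x, ?_⟩
      ext y
      simp only [mem_filter, mem_singleton]
      constructor
      · rintro ⟨h1, h2⟩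
        exact hL i hi y h1 x hx h2
      · rintro rfl
        exact ⟨hx, rfl⟩
    unfold Free at hf
    rw [e j hj, e (j + 1) (by omega)] at hf
    push_cast at hf
    linarith
  have hfreecount : ∀ x ∈ A, (((range L).filter (fun j => Free b A p j x)).card : ℝ) ≤ ℓ := by
    intro x hx
    apply hℓ
    exact cnt_drop hx (by linarith) L
  -- popular levels
  set J := (range L).filter (fun j => κ * A.card ≤ ((A.filter (fun x => Free b A p j x)).card : ℝ)) with hJ
  have hdouble : ∑ j ∈ range L, ((A.filter (fun x => Free b A p j x)).card : ℝ) =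
      ∑ x ∈ A, (((range L).filter (fun j => Free b A p j x)).card : ℝ) := by
    have : ∑ j ∈ range L, (A.filter (fun x => Free b A p j x)).card =
      ∑ x ∈ A, ((range L).filter (fun j => Free b A p j x)).card := by
      simp only [Finset.card_filter]
      rw [Finset.sum_comm]
    exact_mod_cast this
  have hJcard : (J.card : ℝ) ≤ ℓ / κ := by
    have h1 : (J.card : ℝ) * (κ * A.card) ≤ A.card * ℓ := by
      calc (J.card : ℝ) * (κ * A.card) = ∑ j ∈ J, κ * (A.card : ℝ) := by
            rw [Finset.sum_const, nsmul_eq_mul]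
        _ ≤ ∑ j ∈ J, ((A.filter (fun x => Free b A p j x)).card : ℝ) :=
            Finset.sum_le_sum (fun j hj => (mem_filter.mp hj).2)
        _ ≤ ∑ j ∈ range L, ((A.filter (fun x => Free b A p j x)).card : ℝ) :=
            Finset.sum_le_sum_of_subset_of_nonneg (Finset.filter_subset _ _)
              (fun _ _ _ => by positivity)
        _ = ∑ x ∈ A, (((range L).filter (fun j => Free b A p j x)).card : ℝ) := hdouble
        _ ≤ ∑ x ∈ A, ℓ := Finset.sum_le_sum hfreecount
        _ = A.card * ℓ := by rw [Finset.sum_const, nsmul_eq_mul]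
    rw [le_div_iff₀ hκ]
    nlinarith
  -- drop levels of the product tree
  let D : ℤ → Finset ℕ := fun y => (range L1).filter (fun r => (cntP A p (r + 1) y : ℝ) ≤ (1 / 2) * cntP A p r y)
  have hDcard : ∀ g ∈ A ×ˢ A, ((D (g.1 * g.2)).card : ℝ) ≤ ℓ2 := by
    intro g hg
    apply hℓ2
    have h := drop_count (fun r => (cntP A p r (g.1 * g.2) : ℝ)) (1 / 2) (by norm_num)
      (fun j => by exact_mod_cast cntP_succ_le A p j _) L1
    simp only [cntP_zero] at h
    push_cast at h
    refine le_trans ?_ h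
    exact_mod_cast cntP_pos ⟨g, hg, rfl⟩
  have hDnot : ∀ g ∈ A ×ˢ A, ∀ r, r ∉ D (g.1 * g.2) →
      (cntP A p r (g.1 * g.2) : ℝ) < 2 * cntP A p (r + 1) (g.1 * g.2) := by
    intro g hg r hr
    have hpos : (0 : ℝ) < cntP A p r (g.1 * g.2) := by exact_mod_cast cntP_pos ⟨g, hg, rfl⟩
    by_cases hrL : r < L1
    · have : ¬ (cntP A p (r + 1) (g.1 * g.2) : ℝ) ≤ (1 / 2) * cntP A p r (g.1 * g.2) := by
        intro h
        exact hr (mem_filter.mpr ⟨mem_range.mpr hrL, h⟩)
      linarith
    · rw [hL1 r (by omega) g hg]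
      linarith
  refine ⟨fun y => (D y ×ˢ J).image (fun q => q.1 - q.2), ?_, ?_⟩
  · intro g hg
    calc (((D (g.1 * g.2) ×ˢ J).image (fun q => q.1 - q.2)).card : ℝ)
        ≤ ((D (g.1 * g.2) ×ˢ J).card : ℝ) := by exact_mod_cast Finset.card_image_le
      _ = (D (g.1 * g.2)).card * J.card := by rw [Finset.card_product]; push_cast; rfl
      _ ≤ ℓ2 * (ℓ / κ) := by
          apply mul_le_mul (hDcard g hg) hJcard (by positivity)
          exact (by positivity : (0 : ℝ) ≤ ((D (g.1 * g.2)).card : ℝ)).trans (hDcard g hg)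
  · -- the exceptional pairs
    set Bad1 := A.filter (fun x => τ ≤ wt A p J x) with hBad1
    have hpairs : ((Bad1 ×ˢ A).card : ℝ) ≤ κ * ℓ * (A.card : ℝ) ^ 2 + E ^ 2 / τ * ((A + A).card : ℝ) := by
      set G := (Bad1 ×ˢ A).filter (fun g => ∀ j, Free b A p j g.1 → Free b A p j g.2 → j ∈ J) with hG
      set H := (Bad1 ×ˢ A).filter (fun g => ¬ ∀ j, Free b A p j g.1 → Free b A p j g.2 → j ∈ J) with hH
      have hGH : G.card + H.card = (Bad1 ×ˢ A).card := Finset.card_filter_add_card_filter_not _
      have hGcard : (G.card : ℝ) ≤ E ^ 2 / τ * ((A + A).card : ℝ) := by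
        have := countA hb0.le hb A A hp2 J hE0 le_rfl le_rfl hE hτ.le G
          (fun g hg => by
            have h1 := (mem_filter.mp hg).1
            rw [mem_product] at h1
            exact ⟨(mem_filter.mp h1.1).1, h1.2⟩)
          (fun g hg => (mem_filter.mp hg).2)
          (fun g hg => by
            have h1 := (mem_filter.mp hg).1
            rw [mem_product] at h1
            exact (mem_filter.mp h1.1).2)
          (A + A)
          (fun g hg => by
            have h1 := (mem_filter.mp hg).1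
            rw [mem_product] at h1
            exact Finset.add_mem_add (mem_filter.mp h1.1).1 h1.2)
        rw [div_mul_eq_mul_div, le_div_iff₀ hτ]
        exact this
      have hHcard : (H.card : ℝ) ≤ κ * ℓ * (A.card : ℝ) ^ 2 := by
        have hsub : H ⊆ Bad1.biUnion (fun x => ((range L).filter (fun j => Free b A p j x ∧ j ∉ J)).biUnion
            (fun j => (A.filter (fun x' => Free b A p j x')).image (fun x' => (x, x')))) := by
          intro g hg
          rw [hH, mem_filter, mem_product] at hg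
          obtain ⟨⟨hg1, hg2⟩, hg3⟩ := hg
          push Not at hg3
          obtain ⟨j, hj1, hj2, hj3⟩ := hg3
          simp only [mem_biUnion, mem_filter, mem_range, mem_image]
          refine ⟨g.1, hg1, j, ⟨hfreeL g.1 (mem_filter.mp hg1).1 j hj1, hj1, hj3⟩, g.2, ⟨hg2, hj2⟩, rfl⟩
        have hb1 : (H.card : ℝ) ≤ ∑ x ∈ Bad1, ∑ j ∈ (range L).filter (fun j => Free b A p j x ∧ j ∉ J),
            ((A.filter (fun x' => Free b A p j x')).card : ℝ) := by
          have : H.card ≤ ∑ x ∈ Bad1, ∑ j ∈ (range L).filter (fun j => Free b A p j x ∧ j ∉ J),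
            (A.filter (fun x' => Free b A p j x')).card := by
            refine (Finset.card_le_card hsub).trans ?_
            refine Finset.card_biUnion_le.trans ?_
            apply Finset.sum_le_sum
            intro x _
            refine Finset.card_biUnion_le.trans ?_
            apply Finset.sum_le_sum
            intro j _
            exact Finset.card_image_le
          exact_mod_cast this
        refine hb1.trans ?_
        calc _ ≤ ∑ x ∈ Bad1, ∑ j ∈ (range L).filter (fun j => Free b A p j x ∧ j ∉ J), κ * (A.card : ℝ) := by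
              apply Finset.sum_le_sum
              intro x _
              apply Finset.sum_le_sum
              intro j hj
              rw [mem_filter] at hj
              by_contra hcon
              push Not at hcon
              exact hj.2.2 (mem_filter.mpr ⟨hj.1, hcon.le⟩)
          _ ≤ ∑ x ∈ Bad1, ℓ * (κ * (A.card : ℝ)) := by
              apply Finset.sum_le_sum
              intro x hx
              rw [Finset.sum_const, nsmul_eq_mul]
              apply mul_le_mul_of_nonneg_right _ (by positivity)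
              refine le_trans ?_ (hfreecount x (mem_filter.mp hx).1)
              exact_mod_cast Finset.card_le_card (fun j hj => by
                rw [mem_filter] at hj ⊢
                exact ⟨hj.1, hj.2.1⟩)
          _ = Bad1.card * (ℓ * (κ * (A.card : ℝ))) := by rw [Finset.sum_const, nsmul_eq_mul]
          _ ≤ A.card * (ℓ * (κ * (A.card : ℝ))) := by
              have hl0 : 0 ≤ ℓ := by
                obtain ⟨x, hx⟩ := hAne
                exact (by positivity : (0 : ℝ) ≤ _).trans (hfreecount x hx)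
              apply mul_le_mul_of_nonneg_right _ (by positivity)
              exact_mod_cast Finset.card_filter_le _ _
          _ = _ := by ring
      have : ((Bad1 ×ˢ A).card : ℝ) = G.card + H.card := by exact_mod_cast hGH.symm
      rw [this]
      linarith
    set F := fun y => (D y ×ˢ J).image (fun q => q.1 - q.2) with hF
    have hR : ∀ x' ∈ A, ((A.filter (fun x => wt A p J x < τ ∧ vp p x' ∉ F (x * x'))).card : ℝ) ≤ τ * A.card := by
      intro x' hx'
      apply lemmaB A hp2 J _ (Finset.filter_subset _ _) _ hτ.le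
      · intro x hx
        exact (mem_filter.mp hx).2.1
      · intro j hj x hx y hy hxy
        rw [mem_filter] at hx hy
        have hx'0 : x' ≠ 0 := fun h => h0 (h ▸ hx')
        have hDx : j + vp p x' ∉ D (x * x') := by
          intro h
          apply hx.2.2
          rw [hF]
          simp only [mem_image, mem_product]
          exact ⟨(j + vp p x', j), ⟨h, hj⟩, by simp⟩
        have hDy : j + vp p x' ∉ D (y * x') := by
          intro h
          apply hy.2.2
          rw [hF]
          simp only [mem_image, mem_product]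
          exact ⟨(j + vp p x', j), ⟨h, hj⟩, by simp⟩
        have hx1 := hDnot (x, x') (mem_product.mpr ⟨hx.1, hx'⟩) _ hDx
        have hy1 := hDnot (y, x') (mem_product.mpr ⟨hy.1, hx'⟩) _ hDy
        simp only at hx1 hy1
        have hmod : (x * x') % (p : ℤ) ^ (j + vp p x') = (y * x') % (p : ℤ) ^ (j + vp p x') := by
          have h1 : (p : ℤ) ^ j ∣ y - x := Int.ModEq.dvd hxy
          have h2 : (p : ℤ) ^ (j + vp p x') ∣ y * x' - x * x' := by
            rw [← sub_mul, pow_add]
            exact mul_dvd_mul h1 (pow_vp_dvd p x')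
          exact Int.modEq_iff_dvd.mpr h2
        rw [← cntP_congr hmod] at hy1
        have hmod2 : (x * x') % (p : ℤ) ^ (j + vp p x' + 1) = (y * x') % (p : ℤ) ^ (j + vp p x' + 1) := by
          by_contra hne
          have h3 := cntP_add_le (A := A) hmod hne
          have h3' : (cntP A p (j + vp p x' + 1) (x * x') : ℝ) + cntP A p (j + vp p x' + 1) (y * x')
            ≤ cntP A p (j + vp p x') (x * x') := by exact_mod_cast h3
          linarith
        have h4 : (p : ℤ) ^ (j + 1 + vp p x') ∣ (y - x) * x' := by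
          have := Int.ModEq.dvd hmod2
          rw [← sub_mul] at this
          rwa [show j + 1 + vp p x' = j + vp p x' + 1 by ring]
        exact Int.modEq_iff_dvd.mpr (dvd_of_pow_add_vp hp hx'0 h4)
    have hsub : (A ×ˢ A).filter (fun g => vp p g.2 ∉ F (g.1 * g.2)) ⊆
        (Bad1 ×ˢ A) ∪ A.biUnion (fun x' => (A.filter (fun x => wt A p J x < τ ∧ vp p x' ∉ F (x * x'))).image
          (fun x => (x, x'))) := by
      intro g hg
      rw [mem_filter, mem_product] at hg
      rw [mem_union]
      by_cases hw : τ ≤ wt A p J g.1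
      · left
        rw [mem_product]
        exact ⟨mem_filter.mpr ⟨hg.1.1, hw⟩, hg.1.2⟩
      · right
        simp only [mem_biUnion, mem_image, mem_filter]
        exact ⟨g.2, hg.1.2, g.1, ⟨hg.1.1, not_le.mp hw, hg.2⟩, rfl⟩
    have hfin : (((A ×ˢ A).filter (fun g => vp p g.2 ∉ F (g.1 * g.2))).card : ℝ) ≤
        ((Bad1 ×ˢ A).card : ℝ) + ∑ x' ∈ A, ((A.filter (fun x => wt A p J x < τ ∧ vp p x' ∉ F (x * x'))).card : ℝ) := by
      have : ((A ×ˢ A).filter (fun g => vp p g.2 ∉ F (g.1 * g.2))).card ≤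
        (Bad1 ×ˢ A).card + ∑ x' ∈ A, (A.filter (fun x => wt A p J x < τ ∧ vp p x' ∉ F (x * x'))).card := by
        refine (Finset.card_le_card hsub).trans ((Finset.card_union_le _ _).trans ?_)
        apply Nat.add_le_add_left
        refine Finset.card_biUnion_le.trans ?_
        apply Finset.sum_le_sum
        intro x _
        exact Finset.card_image_le
      exact_mod_cast this
    refine hfin.trans ?_
    have h5 : ∑ x' ∈ A, ((A.filter (fun x => wt A p J x < τ ∧ vp p x' ∉ F (x * x'))).card : ℝ) ≤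
        τ * (A.card : ℝ) ^ 2 := by
      calc _ ≤ ∑ x' ∈ A, τ * (A.card : ℝ) := Finset.sum_le_sum hR
        _ = τ * (A.card : ℝ) ^ 2 := by rw [Finset.sum_const, nsmul_eq_mul]; ring
    linarith

end Pool.Agent.Helper17
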