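import Mathlib
import Pool.Agent.Helper17.Dichotomy
import Pool.Agent.Helper17.CappedDef

set_option autoImplicit false

namespace Pool.Agent.Helper17

open Finset Classical
open scoped Pointwise

theorem min_mul_le {u w L : ℝ} (hu : 0 ≤ u) (hw : 0 ≤ w) (hL : 1 ≤ L) :
    min (u + w + 1) L ≤ min (u + 1) L * min (w + 1) L := by
  rcases le_total (u + 1) L with h1 | h1 <;> rcases le_total (w + 1) L with h2 | h2
  · rw [min_eq_left h1, min_eq_left h2]
    exact (min_le_left _ _).trans (by nlinarith)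
  · rw [min_eq_left h1, min_eq_right h2]
    exact (min_le_right _ _).trans (by nlinarith)
  · rw [min_eq_right h1, min_eq_left h2]
    exact (min_le_right _ _).trans (by nlinarith)
  · rw [min_eq_right h1, min_eq_right h2]
    exact (min_le_right _ _).trans (by nlinarith)

theorem min_pow_le {u L : ℝ} (hu : 1 ≤ u) :
    min u (L ^ 16) ≤ (min u L) ^ 16 := by
  rcases le_total u L with h | h
  · rw [min_eq_left h]
    exact (min_le_left _ _).trans (le_self_pow₀ hu (by norm_num))
  · rw [min_eq_right h]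
    exact min_le_right _ _

theorem vp_mul {p : ℕ} {x y : ℤ} (hx : x ≠ 0) (hy : y ≠ 0) : vp p (x * y) = vp p x + vp p y := by
  unfold vp
  rw [Int.natAbs_mul, Nat.factorization_mul (Int.natAbs_ne_zero.mpr hx) (Int.natAbs_ne_zero.mpr hy)]
  rfl

theorem prod_capped_mul {L : ℝ} (hL : 1 ≤ L) {x y : ℤ} (hx : x ≠ 0) (hy : y ≠ 0) :
    ∏ p ∈ (x * y).natAbs.primeFactors, min ((vp p (x * y) : ℝ) + 1) L ≤
      cappedDivisors L x * cappedDivisors L y := by
  have hsub : ∀ z : ℤ, z.natAbs.primeFactors ⊆ (x * y).natAbs.primeFactors →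
      cappedDivisors L z = ∏ p ∈ (x * y).natAbs.primeFactors, min ((vp p z : ℝ) + 1) L := by
    intro z hz
    unfold cappedDivisors vp
    apply Finset.prod_subset hz
    intro p hp hp'
    have hpp : p.Prime := Nat.prime_of_mem_primeFactors hp
    have : z.natAbs.factorization p = 0 := by
      rw [← Finsupp.notMem_support_iff, Nat.support_factorization]
      exact hp'
    rw [this]
    simp [hL]
  have hx' := Int.natAbs_ne_zero.mpr hx
  have hy' := Int.natAbs_ne_zero.mpr hy
  rw [hsub x (by rw [Int.natAbs_mul, Nat.primeFactors_mul hx' hy']; exact Finset.subset_union_left),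
    hsub y (by rw [Int.natAbs_mul, Nat.primeFactors_mul hx' hy']; exact Finset.subset_union_right),
    ← Finset.prod_mul_distrib]
  apply Finset.prod_le_prod
  · intro p _
    exact le_min (by positivity) (by linarith)
  · intro p _
    rw [vp_mul hx hy]
    push_cast
    exact min_mul_le (by positivity) (by positivity) hL

/-- number of good pairs over a given product -/
theorem fiber_bound {A : Finset ℤ} (h0 : (0 : ℤ) ∉ A) {L T : ℝ} (hL : 2 ≤ L)
    (hT : ∀ a ∈ A, cappedDivisors L a ≤ T) (F : ℕ → ℤ → Finset ℕ)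
    (hF : ∀ p : ℕ, p.Prime → ∀ g ∈ A ×ˢ A, ((F p (g.1 * g.2)).card : ℝ) + 2 ≤ L ^ 16)
    (G : Finset (ℤ × ℤ)) (hGA : G ⊆ A ×ˢ A)
    (hG : ∀ g ∈ G, ∀ p : ℕ, p.Prime → vp p g.2 ∈ F p (g.1 * g.2) ∨ vp p g.1 = 0 ∨ vp p g.2 = 0)
    (y : ℤ) : ((G.filter (fun g => g.1 * g.2 = y)).card : ℝ) ≤ 2 * T ^ 32 := by
  rcases (G.filter (fun g => g.1 * g.2 = y)).eq_empty_or_nonempty with he | ⟨g0, hg0⟩
  · rw [he]
    simp only [Finset.card_empty, Nat.cast_zero]
    positivity
  have hg0' := mem_filter.mp hg0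
  have hne : ∀ g ∈ G, g.1 ≠ 0 ∧ g.2 ≠ 0 := by
    intro g hg
    have := mem_product.mp (hGA hg)
    exact ⟨fun h => h0 (h ▸ this.1), fun h => h0 (h ▸ this.2)⟩
  have hy0 : y ≠ 0 := by
    rw [← hg0'.2]
    exact mul_ne_zero (hne g0 hg0'.1).1 (hne g0 hg0'.1).2
  set X : ℕ → Finset ℕ := fun p => (F p y ∪ {0, vp p y}).filter (fun e => e ≤ vp p y) with hX
  have hXcard : ∀ p ∈ y.natAbs.primeFactors, ((X p).card : ℝ) ≤ (min ((vp p y : ℝ) + 1) L) ^ 16 := by
    intro p hp
    have hpp := Nat.prime_of_mem_primeFactors hp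
    have h1 : ((X p).card : ℝ) ≤ (vp p y : ℝ) + 1 := by
      have : (X p).card ≤ (range (vp p y + 1)).card := by
        apply Finset.card_le_card
        intro e he
        rw [mem_range]
        have := (mem_filter.mp he).2
        omega
      rw [Finset.card_range] at this
      exact_mod_cast this
    have h2 : ((X p).card : ℝ) ≤ L ^ 16 := by
      have h3 : (X p).card ≤ (F p y).card + 2 := by
        calc (X p).card ≤ (F p y ∪ {0, vp p y}).card := Finset.card_filter_le _ _
          _ ≤ (F p y).card + ({0, vp p y} : Finset ℕ).card := Finset.card_union_le _ _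
          _ ≤ (F p y).card + 2 := by
            apply Nat.add_le_add_left
            exact Finset.card_le_two
      have h4 := hF p hpp g0 (hGA hg0'.1)
      rw [hg0'.2] at h4
      refine le_trans ?_ h4
      exact_mod_cast h3
    exact (le_min h1 h2).trans (min_pow_le (by
      have : (0 : ℝ) ≤ vp p y := by positivity
      linarith))
  have hinj : (G.filter (fun g => g.1 * g.2 = y)).card ≤
      ((Finset.univ : Finset Bool) ×ˢ (y.natAbs.primeFactors.pi X)).card := by
    apply Finset.card_le_card_of_injOn (fun g => (decide (0 ≤ g.2), fun p _ => vp p g.2))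
    · intro g hg
      have hg' := mem_filter.mp hg
      simp only [coe_product, coe_univ, Set.mem_prod, Set.mem_univ, true_and, mem_coe, Finset.mem_pi]
      intro p hp
      have hpp := Nat.prime_of_mem_primeFactors hp
      have hv : vp p y = vp p g.1 + vp p g.2 := by
        rw [← hg'.2]
        exact vp_mul (hne g hg'.1).1 (hne g hg'.1).2
      rw [hX]
      simp only [mem_filter, mem_union, mem_insert, mem_singleton]
      refine ⟨?_, by omega⟩
      rcases hG g hg'.1 p hpp with h | h | h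
      · left; rw [hg'.2] at h; exact h
      · right; right; omega
      · right; left; exact h
    · intro g hg g' hg' heq
      have hg1 := mem_filter.mp hg
      have hg1' := mem_filter.mp hg'
      simp only [Prod.mk.injEq] at heq
      have hn := hne g hg1.1
      have hn' := hne g' hg1'.1
      have hfac : g.2.natAbs = g'.2.natAbs := by
        apply Nat.eq_of_factorization_eq (Int.natAbs_ne_zero.mpr hn.2) (Int.natAbs_ne_zero.mpr hn'.2)
        intro p
        by_cases hp : p ∈ y.natAbs.primeFactors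
        · have := congrFun (congrFun heq.2 p) hp
          exact this
        · have hz : ∀ h ∈ G, h.1 * h.2 = y → h.2.natAbs.factorization p = 0 := by
            intro h hh hhy
            have hnn := hne h hh
            rw [← Finsupp.notMem_support_iff, Nat.support_factorization]
            intro hmem
            apply hp
            rw [← hhy, Int.natAbs_mul, Nat.primeFactors_mul (Int.natAbs_ne_zero.mpr hnn.1)
              (Int.natAbs_ne_zero.mpr hnn.2)]
            exact mem_union_right _ hmem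
          rw [hz g hg1.1 hg1.2, hz g' hg1'.1 hg1'.2]
      have h2 : g.2 = g'.2 := by
        rcases Int.natAbs_eq_natAbs_iff.mp hfac with h | h
        · exact h
        · exfalso
          have hd := heq.1
          rw [h] at hd
          simp only [Left.nonneg_neg_iff, decide_eq_decide] at hd
          rcases lt_trichotomy g'.2 0 with h3 | h3 | h3
          · have := hd.mp h3.le; omega
          · exact hn'.2 h3
          · have := hd.mpr h3.le; omega
      have h1 : g.1 = g'.1 := by
        have e : g.1 * g.2 = g'.1 * g.2 := by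
          rw [hg1.2, h2, hg1'.2]
        exact mul_right_cancel₀ hn.2 e
      exact Prod.ext h1 h2
  have hcard : (((Finset.univ : Finset Bool) ×ˢ (y.natAbs.primeFactors.pi X)).card : ℝ) =
      2 * ∏ p ∈ y.natAbs.primeFactors, ((X p).card : ℝ) := by
    rw [Finset.card_product, Finset.card_pi]
    simp
  have hg0A := mem_product.mp (hGA hg0'.1)
  calc ((G.filter (fun g => g.1 * g.2 = y)).card : ℝ)
      ≤ (((Finset.univ : Finset Bool) ×ˢ (y.natAbs.primeFactors.pi X)).card : ℝ) := by
        exact_mod_cast hinj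
    _ = 2 * ∏ p ∈ y.natAbs.primeFactors, ((X p).card : ℝ) := hcard
    _ ≤ 2 * ∏ p ∈ y.natAbs.primeFactors, (min ((vp p y : ℝ) + 1) L) ^ 16 := by
        apply mul_le_mul_of_nonneg_left _ (by norm_num)
        exact Finset.prod_le_prod (fun _ _ => by positivity) hXcard
    _ = 2 * (∏ p ∈ y.natAbs.primeFactors, min ((vp p y : ℝ) + 1) L) ^ 16 := by
        rw [Finset.prod_pow]
    _ ≤ 2 * (T * T) ^ 16 := by
        apply mul_le_mul_of_nonneg_left _ (by norm_num)
        apply pow_le_pow_left₀
        · exact Finset.prod_nonneg (fun p _ => le_min (by positivity) (by linarith))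
        · rw [← hg0'.2]
          have hpos : ∀ a : ℤ, 0 ≤ cappedDivisors L a := fun a => by
            unfold cappedDivisors
            exact Finset.prod_nonneg (fun p _ => le_min (by positivity) (by linarith))
          refine (prod_capped_mul (by linarith) (hne g0 hg0'.1).1 (hne g0 hg0'.1).2).trans ?_
          exact mul_le_mul (hT _ hg0A.1) (hT _ hg0A.2) (hpos _) ((hpos _).trans (hT _ hg0A.1))
    _ = 2 * T ^ 32 := by ring

theorem exists_F {A : Finset ℤ} (h0 : (0 : ℤ) ∉ A) {L M : ℝ} (hLM : L ≤ M) (hM : 64 ≤ M)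
    (hAL : (A.card : ℝ) ≤ Real.exp L) (p : ℕ) (hp : p.Prime) :
    ∃ F : ℤ → Finset ℕ,
      (∀ g ∈ A ×ˢ A, ((F (g.1 * g.2)).card : ℝ) + 2 ≤ M ^ 16) ∧
      (((A ×ˢ A).filter (fun g => vp p g.2 ∉ F (g.1 * g.2))).card : ℝ) ≤
        2 / M ^ 3 * (A.card : ℝ) ^ 2 +
          M ^ 3 * (Real.exp (Real.log 2 * L / (4 * Real.log M))) ^ 2 * ((A + A).card : ℝ) := by
  have hM0 : (0 : ℝ) < M := by linarith
  have hlogM : 0 < Real.log M := Real.log_pos (by linarith)
  have hb0 : (0 : ℝ) < 1 / M ^ 4 := by positivity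
  have hM4 : (2 : ℝ) ≤ M ^ 4 := by
    have : (2 : ℝ) ^ 4 ≤ M ^ 4 := pow_le_pow_left₀ (by norm_num) (by linarith) 4
    linarith
  obtain ⟨F, hF1, hF2⟩ := dichotomy A h0 hp (b := 1 / M ^ 4) (τ := 1 / M ^ 3)
    (E := Real.exp (Real.log 2 * L / (4 * Real.log M))) (κ := 1 / M ^ 8) (ℓ := M ^ 5) (ℓ2 := 3 * M)
    hb0 (one_div_le_one_div_of_le (by norm_num) hM4) (by positivity) (Real.exp_pos _) (by positivity)
    (by
      intro m hm
      have h1 : (1 / M ^ 4 : ℝ) ^ m = Real.exp (-(4 * m * Real.log M)) := by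
        rw [Real.exp_neg, one_div, inv_pow, ← pow_mul]
        congr 1
        rw [show (4 * (m : ℝ) * Real.log M) = Real.log M * ((4 * m : ℕ) : ℝ) by push_cast; ring,
          Real.exp_mul, Real.exp_log hM0, Real.rpow_natCast]
      have h2 : (1 : ℝ) ≤ Real.exp (-(4 * m * Real.log M) + L) := by
        rw [Real.exp_add, ← h1]
        exact hm.trans (mul_le_mul_of_nonneg_left hAL (by positivity))
      have h3 : 0 ≤ -(4 * m * Real.log M) + L := Real.one_le_exp_iff.mp h2
      have h4 : (m : ℝ) ≤ L / (4 * Real.log M) := by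
        rw [le_div_iff₀ (by positivity)]
        linarith
      calc (2 : ℝ) ^ m = Real.exp (Real.log 2 * m) := by
            rw [Real.exp_mul, Real.exp_log (by norm_num), Real.rpow_natCast]
        _ ≤ Real.exp (Real.log 2 * L / (4 * Real.log M)) := by
            apply Real.exp_le_exp.mpr
            rw [mul_div_assoc]
            exact mul_le_mul_of_nonneg_left h4 (Real.log_nonneg (by norm_num)))
    (by
      intro m hm
      have h1 : (1 - 1 / M ^ 4 : ℝ) ^ m ≤ Real.exp (-(m * (1 / M ^ 4))) := by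
        have h2 : (1 - 1 / M ^ 4 : ℝ) ≤ Real.exp (-(1 / M ^ 4)) := by
          have := Real.add_one_le_exp (-(1 / M ^ 4 : ℝ))
          linarith
        have h3 : (0 : ℝ) ≤ 1 - 1 / M ^ 4 := by
          have : (1 / M ^ 4 : ℝ) ≤ 1 / 2 := one_div_le_one_div_of_le (by norm_num) hM4
          linarith
        calc (1 - 1 / M ^ 4 : ℝ) ^ m ≤ (Real.exp (-(1 / M ^ 4))) ^ m := pow_le_pow_left₀ h3 h2 m
          _ = Real.exp (-(m * (1 / M ^ 4))) := by
            rw [← Real.exp_nat_mul]; congr 1; ring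
      have h2 : (1 : ℝ) ≤ Real.exp (-(m * (1 / M ^ 4)) + L) := by
        rw [Real.exp_add]
        exact hm.trans (mul_le_mul h1 hAL (by positivity) (Real.exp_pos _).le)
      have h3 : 0 ≤ -(m * (1 / M ^ 4)) + L := Real.one_le_exp_iff.mp h2
      have h4 : (m : ℝ) * (1 / M ^ 4) ≤ L := by linarith
      rw [mul_one_div, div_le_iff₀ (by positivity)] at h4
      calc (m : ℝ) ≤ L * M ^ 4 := h4
        _ ≤ M * M ^ 4 := mul_le_mul_of_nonneg_right hLM (by positivity)
        _ = M ^ 5 := by ring)
    (by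
      intro m hm
      have h1 : (1 / 2 : ℝ) ^ m = Real.exp (-(m * Real.log 2)) := by
        rw [Real.exp_neg, one_div, inv_pow]
        congr 1
        rw [mul_comm, Real.exp_mul, Real.exp_log (by norm_num), Real.rpow_natCast]
      have h2 : (1 : ℝ) ≤ Real.exp (-(m * Real.log 2) + 2 * L) := by
        rw [Real.exp_add, ← h1, two_mul, Real.exp_add, ← sq]
        exact hm.trans (mul_le_mul_of_nonneg_left (pow_le_pow_left₀ (by positivity) hAL 2) (by positivity))
      have h3 : 0 ≤ -(m * Real.log 2) + 2 * L := Real.one_le_exp_iff.mp h2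
      have h4 : (0.6931471803 : ℝ) < Real.log 2 := Real.log_two_gt_d9
      have h5 : (0 : ℝ) ≤ m := by positivity
      nlinarith)
  refine ⟨F, ?_, ?_⟩
  · intro g hg
    have h1 := hF1 g hg
    have h2 : 3 * M * (M ^ 5 / (1 / M ^ 8)) = 3 * M ^ 14 := by
      field_simp
    rw [h2] at h1
    have h3 : (64 : ℝ) ^ 2 * M ^ 14 ≤ M ^ 2 * M ^ 14 :=
      mul_le_mul_of_nonneg_right (pow_le_pow_left₀ (by norm_num) hM 2) (by positivity)
    have h4 : (1 : ℝ) ≤ M ^ 14 := one_le_pow₀ (by linarith)
    have h5 : M ^ 16 = M ^ 2 * M ^ 14 := by ring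
    rw [h5]
    linarith
  · refine hF2.trans (le_of_eq ?_)
    congr 1
    · congr 1
      field_simp
      norm_num
    · congr 1
      field_simp

/-- The core estimate. -/
theorem core {A : Finset ℤ} (h0 : (0 : ℤ) ∉ A) (hne : A.Nonempty) {L M T : ℝ} (hL : 0 < L) (hLM : L ≤ M)
    (hM : 64 ≤ M) (hAL : (A.card : ℝ) ≤ Real.exp L)
    (hT : ∀ a ∈ A, cappedDivisors M a ≤ T)
    (hω : ∀ a ∈ A, (a.natAbs.primeFactors.card : ℝ) ≤ L) :
    (A.card : ℝ) ^ 2 ≤ 32 * M ^ 5 * (Real.exp (Real.log 2 * L / (4 * Real.log M))) ^ 2 * ((A + A).card : ℝ) ∨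
    (A.card : ℝ) ^ 2 ≤ 4 * T ^ 32 * ((A * A).card : ℝ) := by
  by_contra hcon
  push Not at hcon
  obtain ⟨hc1, hc2⟩ := hcon
  have hM0 : (0 : ℝ) < M := by linarith
  have hm : (0 : ℝ) < A.card := by exact_mod_cast hne.card_pos
  set m : ℝ := (A.card : ℝ) with hmdef
  set E : ℝ := Real.exp (Real.log 2 * L / (4 * Real.log M)) with hE
  have hF := fun (p : ℕ) (hp : p.Prime) => exists_F h0 hLM hM hAL p hp
  let F : ℕ → ℤ → Finset ℕ := fun p => if hp : p.Prime then (hF p hp).choose else fun _ => ∅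
  have hFspec1 : ∀ p : ℕ, p.Prime → ∀ g ∈ A ×ˢ A, ((F p (g.1 * g.2)).card : ℝ) + 2 ≤ M ^ 16 := by
    intro p hp
    simp only [F, dif_pos hp]
    exact (hF p hp).choose_spec.1
  have hFspec2 : ∀ p : ℕ, p.Prime →
      (((A ×ˢ A).filter (fun g => vp p g.2 ∉ F p (g.1 * g.2))).card : ℝ) ≤
        2 / M ^ 3 * m ^ 2 + M ^ 3 * E ^ 2 * ((A + A).card : ℝ) := by
    intro p hp
    simp only [F, dif_pos hp]
    exact (hF p hp).choose_spec.2
  -- primes
  set P := A.biUnion (fun a => a.natAbs.primeFactors) with hP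
  have hPprime : ∀ p ∈ P, p.Prime := by
    intro p hp
    obtain ⟨a, _, ha⟩ := mem_biUnion.mp hp
    exact Nat.prime_of_mem_primeFactors ha
  set N : ℕ → Finset ℤ := fun p => A.filter (fun a => p ∈ a.natAbs.primeFactors) with hN
  have hsumN : ∑ p ∈ P, ((N p).card : ℝ) ≤ L * m := by
    have h1 : ∑ p ∈ P, (N p).card = ∑ a ∈ A, (P.filter (fun p => p ∈ a.natAbs.primeFactors)).card := by
      simp only [hN, Finset.card_filter]
      rw [Finset.sum_comm]
    have h2 : ∑ p ∈ P, ((N p).card : ℝ) =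
        ∑ a ∈ A, ((P.filter (fun p => p ∈ a.natAbs.primeFactors)).card : ℝ) := by exact_mod_cast h1
    rw [h2]
    calc _ ≤ ∑ a ∈ A, L := by
          apply Finset.sum_le_sum
          intro a ha
          refine le_trans ?_ (hω a ha)
          exact_mod_cast Finset.card_le_card (fun p hp => (mem_filter.mp hp).2)
      _ = L * m := by rw [Finset.sum_const, nsmul_eq_mul]; ring
  set D := P.filter (fun p => 1 / (4 * L) * m ≤ ((N p).card : ℝ)) with hD
  have hDcard : (D.card : ℝ) ≤ 4 * L ^ 2 := by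
    have h1 : (D.card : ℝ) * (1 / (4 * L) * m) ≤ L * m := by
      calc (D.card : ℝ) * (1 / (4 * L) * m) = ∑ p ∈ D, (1 / (4 * L) * m) := by
            rw [Finset.sum_const, nsmul_eq_mul]
        _ ≤ ∑ p ∈ D, ((N p).card : ℝ) := Finset.sum_le_sum (fun p hp => (mem_filter.mp hp).2)
        _ ≤ ∑ p ∈ P, ((N p).card : ℝ) := Finset.sum_le_sum_of_subset_of_nonneg
            (Finset.filter_subset _ _) (fun _ _ _ => by positivity)
        _ ≤ L * m := hsumN
    have h2 : (D.card : ℝ) * (1 / (4 * L) * m) = (D.card : ℝ) / (4 * L) * m := by ring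
    rw [h2] at h1
    have h3 := le_of_mul_le_mul_right h1 hm
    rw [div_le_iff₀ (by positivity)] at h3
    nlinarith
  -- bad pairs
  set B0 := (P \ D).biUnion (fun p => N p ×ˢ N p) with hB0
  set B1 := D.biUnion (fun p => (A ×ˢ A).filter (fun g => vp p g.2 ∉ F p (g.1 * g.2))) with hB1
  have hB0card : (B0.card : ℝ) ≤ m ^ 2 / 4 := by
    have h1 : (B0.card : ℝ) ≤ ∑ p ∈ P \ D, ((N p).card : ℝ) * (N p).card := by
      have : B0.card ≤ ∑ p ∈ P \ D, (N p).card * (N p).card := by
        refine Finset.card_biUnion_le.trans ?_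
        apply Finset.sum_le_sum
        intro p _
        rw [Finset.card_product]
      exact_mod_cast this
    calc (B0.card : ℝ) ≤ ∑ p ∈ P \ D, ((N p).card : ℝ) * (N p).card := h1
      _ ≤ ∑ p ∈ P \ D, ((N p).card : ℝ) * (1 / (4 * L) * m) := by
          apply Finset.sum_le_sum
          intro p hp
          rw [mem_sdiff] at hp
          apply mul_le_mul_of_nonneg_left _ (by positivity)
          by_contra hcon
          push Not at hcon
          exact hp.2 (mem_filter.mpr ⟨hp.1, hcon.le⟩)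
      _ = (∑ p ∈ P \ D, ((N p).card : ℝ)) * (1 / (4 * L) * m) := by rw [Finset.sum_mul]
      _ ≤ (L * m) * (1 / (4 * L) * m) := by
          apply mul_le_mul_of_nonneg_right _ (by positivity)
          refine le_trans ?_ hsumN
          exact Finset.sum_le_sum_of_subset_of_nonneg Finset.sdiff_subset (fun _ _ _ => by positivity)
      _ = m ^ 2 / 4 := by field_simp
  have hB1card : (B1.card : ℝ) ≤ m ^ 2 / 4 := by
    have h1 : (B1.card : ℝ) ≤ ∑ p ∈ D, (2 / M ^ 3 * m ^ 2 + M ^ 3 * E ^ 2 * ((A + A).card : ℝ)) := by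
      have : (B1.card : ℝ) ≤ ∑ p ∈ D,
          (((A ×ˢ A).filter (fun g => vp p g.2 ∉ F p (g.1 * g.2))).card : ℝ) := by
        exact_mod_cast Finset.card_biUnion_le
      refine this.trans ?_
      apply Finset.sum_le_sum
      intro p hp
      exact hFspec2 p (hPprime p (mem_filter.mp hp).1)
    rw [Finset.sum_const, nsmul_eq_mul] at h1
    have hLM2 : L ^ 2 ≤ M ^ 2 := pow_le_pow_left₀ hL.le hLM 2
    have h2 : (D.card : ℝ) * (2 / M ^ 3 * m ^ 2 + M ^ 3 * E ^ 2 * ((A + A).card : ℝ)) ≤
        4 * M ^ 2 * (2 / M ^ 3 * m ^ 2 + M ^ 3 * E ^ 2 * ((A + A).card : ℝ)) :=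
      mul_le_mul_of_nonneg_right (hDcard.trans (by linarith)) (by positivity)
    have h3 : 4 * M ^ 2 * (2 / M ^ 3 * m ^ 2 + M ^ 3 * E ^ 2 * ((A + A).card : ℝ)) =
        8 / M * m ^ 2 + 4 * M ^ 5 * E ^ 2 * ((A + A).card : ℝ) := by
      field_simp
      ring
    have h4 : 8 / M * m ^ 2 ≤ m ^ 2 / 8 := by
      have : 8 / M ≤ 1 / 8 := by
        rw [div_le_div_iff₀ hM0 (by norm_num)]
        linarith
      nlinarith [sq_nonneg m]
    nlinarith
  -- good pairs
  set G := ((A ×ˢ A) \ B0) \ B1 with hG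
  have hGcard : m ^ 2 / 2 ≤ (G.card : ℝ) := by
    have h1 : (A ×ˢ A).card ≤ G.card + B0.card + B1.card := by
      have h2 := Finset.le_card_sdiff B0 (A ×ˢ A)
      have h3 := Finset.le_card_sdiff B1 ((A ×ˢ A) \ B0)
      rw [← hG] at h3
      omega
    rw [Finset.card_product] at h1
    have h2 : (m : ℝ) * m ≤ G.card + B0.card + B1.card := by
      rw [hmdef]
      exact_mod_cast h1
    nlinarith
  have hfib : ∀ y, ((G.filter (fun g => g.1 * g.2 = y)).card : ℝ) ≤ 2 * T ^ 32 := by
    intro y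
    apply fiber_bound h0 (by linarith) hT F hFspec1 G
    · intro g hg
      exact (mem_sdiff.mp (mem_sdiff.mp hg).1).1
    · intro g hg p hp
      have hg1 := (mem_sdiff.mp hg).2
      have hg2 := (mem_sdiff.mp (mem_sdiff.mp hg).1).2
      have hgA := (mem_sdiff.mp (mem_sdiff.mp hg).1).1
      have hgA' := mem_product.mp hgA
      by_cases h1 : vp p g.1 = 0
      · right; left; exact h1
      by_cases h2 : vp p g.2 = 0
      · right; right; exact h2
      left
      have hmem : ∀ a ∈ A, vp p a ≠ 0 → p ∈ P ∧ a ∈ N p := by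
        intro a ha hv
        have hpa : p ∈ a.natAbs.primeFactors := by
          rw [← Nat.support_factorization, Finsupp.mem_support_iff]
          exact hv
        exact ⟨mem_biUnion.mpr ⟨a, ha, hpa⟩, mem_filter.mpr ⟨ha, hpa⟩⟩
      have hp1 := hmem g.1 hgA'.1 h1
      have hp2 := hmem g.2 hgA'.2 h2
      have hpD : p ∈ D := by
        by_contra hpD
        apply hg2
        exact mem_biUnion.mpr ⟨p, mem_sdiff.mpr ⟨hp1.1, hpD⟩, mem_product.mpr ⟨hp1.2, hp2.2⟩⟩
      by_contra hbad
      apply hg1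
      exact mem_biUnion.mpr ⟨p, hpD, mem_filter.mpr ⟨hgA, hbad⟩⟩
  have hGsum : (G.card : ℝ) ≤ (A * A).card * (2 * T ^ 32) := by
    have h1 : (G.card : ℝ) = ∑ y ∈ A * A, ((G.filter (fun g => g.1 * g.2 = y)).card : ℝ) := by
      have : G.card = ∑ y ∈ A * A, (G.filter (fun g => g.1 * g.2 = y)).card := by
        apply Finset.card_eq_sum_card_fiberwise
        intro g hg
        have hgA := (mem_sdiff.mp (mem_sdiff.mp hg).1).1
        have hgA' := mem_product.mp hgA
        exact Finset.mul_mem_mul hgA'.1 hgA'.2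
      exact_mod_cast this
    rw [h1]
    calc _ ≤ ∑ y ∈ A * A, (2 * T ^ 32) := Finset.sum_le_sum (fun y _ => hfib y)
      _ = _ := by rw [Finset.sum_const, nsmul_eq_mul]
  nlinarith

/-- The case where the cap is not active. -/
theorem divisor_case {A : Finset ℤ} (h0 : (0 : ℤ) ∉ A) {M T : ℝ} (hM : 64 ≤ M) (hTM : T < M)
    (hT : ∀ a ∈ A, cappedDivisors M a ≤ T) :
    (A.card : ℝ) ^ 2 ≤ 2 * T ^ 32 * ((A * A).card : ℝ) := by
  have hv : ∀ a ∈ A, ∀ p : ℕ, p.Prime → (vp p a : ℝ) + 1 ≤ M := by
    intro a ha p hp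
    by_cases hpa : p ∈ a.natAbs.primeFactors
    · have h1 : min ((vp p a : ℝ) + 1) M ≤ cappedDivisors M a := by
        unfold cappedDivisors
        rw [← Finset.mul_prod_erase _ _ hpa]
        have h2 : (1 : ℝ) ≤ ∏ x ∈ a.natAbs.primeFactors.erase p, min ((a.natAbs.factorization x : ℝ) + 1) M := by
          calc (1 : ℝ) = ∏ x ∈ a.natAbs.primeFactors.erase p, (1 : ℝ) := by simp
            _ ≤ _ := by
              apply Finset.prod_le_prod (fun _ _ => by norm_num)
              intro x _
              exact le_min (by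
                have : (0 : ℝ) ≤ (a.natAbs.factorization x : ℝ) := by positivity
                linarith) (by linarith)
        have h3 : (0 : ℝ) ≤ min ((a.natAbs.factorization p : ℝ) + 1) M := le_min (by positivity) (by linarith)
        exact le_mul_of_one_le_right h3 h2
      have h2 : min ((vp p a : ℝ) + 1) M < M := (h1.trans (hT a ha)).trans_lt hTM
      rcases min_lt_iff.mp h2 with h3 | h3
      · exact h3.le
      · exact absurd h3 (lt_irrefl _)
    · have : vp p a = 0 := by
        unfold vp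
        rw [← Finsupp.notMem_support_iff, Nat.support_factorization]
        exact hpa
      rw [this]
      push_cast
      linarith
  have hne : ∀ g ∈ A ×ˢ A, g.1 ≠ 0 ∧ g.2 ≠ 0 := by
    intro g hg
    have := mem_product.mp hg
    exact ⟨fun h => h0 (h ▸ this.1), fun h => h0 (h ▸ this.2)⟩
  have hfib : ∀ y, (((A ×ˢ A).filter (fun g => g.1 * g.2 = y)).card : ℝ) ≤ 2 * T ^ 32 := by
    intro y
    apply fiber_bound h0 (L := M) (by linarith) hT (fun p y => range (vp p y + 1)) _ (A ×ˢ A) (Finset.Subset.refl _)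
    · intro g hg p _
      left
      rw [mem_range, vp_mul (hne g hg).1 (hne g hg).2]
      omega
    · intro p hp g hg
      have hgA := mem_product.mp hg
      rw [Finset.card_range, vp_mul (hne g hg).1 (hne g hg).2]
      push_cast
      have h1 := hv g.1 hgA.1 p hp
      have h2 := hv g.2 hgA.2 p hp
      have h3 : 64 * M ≤ M ^ 16 := by
        have h4 : (64 : ℝ) ≤ M ^ 15 := by
          calc (64 : ℝ) ≤ M := hM
            _ ≤ M ^ 15 := le_self_pow₀ (by linarith) (by norm_num)
        calc 64 * M ≤ M ^ 15 * M := mul_le_mul_of_nonneg_right h4 (by linarith)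
          _ = M ^ 16 := by ring
      linarith
  have h1 : ((A ×ˢ A).card : ℝ) = ∑ y ∈ A * A, (((A ×ˢ A).filter (fun g => g.1 * g.2 = y)).card : ℝ) := by
    have : (A ×ˢ A).card = ∑ y ∈ A * A, ((A ×ˢ A).filter (fun g => g.1 * g.2 = y)).card := by
      apply Finset.card_eq_sum_card_fiberwise
      intro g hg
      have hgA' := mem_product.mp hg
      exact Finset.mul_mem_mul hgA'.1 hgA'.2
    exact_mod_cast this
  have h2 : ((A ×ˢ A).card : ℝ) = (A.card : ℝ) ^ 2 := by
    rw [Finset.card_product]; push_cast; ring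
  rw [← h2, h1]
  calc _ ≤ ∑ y ∈ A * A, (2 * T ^ 32) := Finset.sum_le_sum (fun y _ => hfib y)
    _ = _ := by rw [Finset.sum_const, nsmul_eq_mul]; ring

end Pool.Agent.Helper17
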