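import Mathlib
import Pool.Agent.Helper17.CappedDef
import Pool.Agent.Helper17.Main

set_option autoImplicit false

namespace Pool.Agent.Helper17

open Finset
open scoped Pointwise

/-- For every finite set `A` of integers with at least three elements and every real cap
`M ≥ log |A|`: if the capped divisor function with cap `M` is at most `T` on `A`, then
`max (|A + A|, |A A|) ≥ |A| ^ (2 - 32 / log M) / (16 T ^ 32)`. -/
theorem capped_main (A : Finset ℤ) (hA : 3 ≤ A.card) (M T : ℝ) (hM : Real.log A.card ≤ M)
    (hT : ∀ a ∈ A, cappedDivisors M a ≤ T) :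
    (A.card : ℝ) ^ (2 - 32 / Real.log M) / (16 * T ^ 32) ≤
      ((max (A + A).card (A * A).card : ℕ) : ℝ) := by
  classical
  have hn3 : (3 : ℝ) ≤ A.card := by exact_mod_cast hA
  have hn0 : (0 : ℝ) < A.card := by linarith
  set n : ℝ := (A.card : ℝ) with hn
  set L : ℝ := Real.log n with hL
  have hL1 : 1 < L := by
    rw [hL, Real.lt_log_iff_exp_lt hn0]
    have := Real.exp_one_lt_d9
    linarith
  have hL0 : 0 < L := by linarith
  have hM1 : 1 < M := by linarith
  have hM0 : 0 < M := by linarith
  have hlogM : 0 < Real.log M := Real.log_pos hM1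
  have hexpL : Real.exp L = n := Real.exp_log hn0
  have hAne : A.Nonempty := by
    rw [← Finset.card_pos]; omega
  -- `T ≥ 1`
  have hcd : ∀ a, 1 ≤ cappedDivisors M a := by
    intro a
    unfold cappedDivisors
    calc (1 : ℝ) = ∏ p ∈ a.natAbs.primeFactors, (1 : ℝ) := by simp
      _ ≤ _ := by
        apply Finset.prod_le_prod (fun _ _ => by norm_num)
        intro p _
        exact le_min (by
          have : (0 : ℝ) ≤ (a.natAbs.factorization p : ℝ) := by positivity
          linarith) hM1.le
  have hT1 : 1 ≤ T := by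
    obtain ⟨a, ha⟩ := hAne
    exact (hcd a).trans (hT a ha)
  have hT32 : 1 ≤ T ^ 32 := one_le_pow₀ hT1
  -- trivial lower bound
  have htriv : n ≤ ((max (A + A).card (A * A).card : ℕ) : ℝ) := by
    have h1 : A.card ≤ (A + A).card := Finset.card_le_card_add_self
    have h2 : A.card ≤ max (A + A).card (A * A).card := h1.trans (le_max_left _ _)
    rw [hn]
    exact_mod_cast h2
  have hpow : n ^ (2 - 32 / Real.log M) = n ^ 2 / Real.exp (32 * L / Real.log M) := by
    rw [Real.rpow_sub hn0, Real.rpow_ofNat]
    congr 1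
    rw [← hexpL, ← Real.exp_mul]
    congr 1
    ring
  have hexp1 : 1 ≤ Real.exp (32 * L / Real.log M) := by
    apply Real.one_le_exp
    positivity
  rw [hpow, div_div]
  by_cases hbig : Real.log M ≤ 32
  · -- small cap
    refine le_trans ?_ htriv
    rw [div_le_iff₀ (by positivity)]
    have h1 : n ≤ Real.exp (32 * L / Real.log M) := by
      rw [← hexpL]
      apply Real.exp_le_exp.mpr
      rw [le_div_iff₀ hlogM]
      nlinarith
    calc n ^ 2 = n * (n * 1) := by ring
      _ ≤ n * (Real.exp (32 * L / Real.log M) * (16 * T ^ 32)) := by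
          apply mul_le_mul_of_nonneg_left _ hn0.le
          exact mul_le_mul h1 (by linarith) (by norm_num) (by positivity)
  push Not at hbig
  by_cases hTbig : n ≤ T ^ 32
  · refine le_trans ?_ htriv
    rw [div_le_iff₀ (by positivity)]
    calc n ^ 2 = n * (1 * n) := by ring
      _ ≤ n * (Real.exp (32 * L / Real.log M) * (16 * T ^ 32)) := by
          apply mul_le_mul_of_nonneg_left _ hn0.le
          exact mul_le_mul hexp1 (by linarith) (by positivity) (by positivity)
  push Not at hTbig
  -- main case
  have hM64 : 64 ≤ M := by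
    have h1 : Real.exp 32 < M := by
      rw [← Real.lt_log_iff_exp_lt hM0]
      exact hbig
    have h2 : (64 : ℝ) ≤ Real.exp 32 := by
      have h4 : Real.exp 32 = Real.exp 16 * Real.exp 16 := by rw [← Real.exp_add]; norm_num
      have h5 : (17 : ℝ) ≤ Real.exp 16 := by
        have := Real.add_one_le_exp (16 : ℝ)
        linarith
      nlinarith
    linarith
  -- remove zero
  set A' := A.erase 0 with hA'
  have hA'sub : A' ⊆ A := Finset.erase_subset _ _
  have hA'0 : (0 : ℤ) ∉ A' := by simp [hA']
  have hcard' : n - 1 ≤ (A'.card : ℝ) := by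
    have := Finset.pred_card_le_card_erase (s := A) (a := (0 : ℤ))
    rw [← hA'] at this
    have h1 : A.card ≤ A'.card + 1 := by omega
    have h2 : n ≤ (A'.card : ℝ) + 1 := by rw [hn]; exact_mod_cast h1
    linarith
  have hcardle : (A'.card : ℝ) ≤ n := by rw [hn]; exact_mod_cast Finset.card_le_card hA'sub
  have hne' : A'.Nonempty := by
    rw [← Finset.card_pos]
    have : (0 : ℝ) < A'.card := by linarith
    exact_mod_cast this
  have hn2 : n ^ 2 / 4 ≤ (A'.card : ℝ) ^ 2 := by nlinarith
  have hsum : ((A' + A').card : ℝ) ≤ ((max (A + A).card (A * A).card : ℕ) : ℝ) := by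
    have h1 : (A' + A').card ≤ (A + A).card := Finset.card_le_card (Finset.add_subset_add hA'sub hA'sub)
    exact_mod_cast h1.trans (le_max_left _ _)
  have hprod : ((A' * A').card : ℝ) ≤ ((max (A + A).card (A * A).card : ℕ) : ℝ) := by
    have h1 : (A' * A').card ≤ (A * A).card := Finset.card_le_card (Finset.mul_subset_mul hA'sub hA'sub)
    exact_mod_cast h1.trans (le_max_right _ _)
  have hprodcase : ∀ c : ℝ, 0 ≤ c → c ≤ 4 → (A'.card : ℝ) ^ 2 ≤ c * T ^ 32 * ((A' * A').card : ℝ) →
      n ^ 2 ≤ ((max (A + A).card (A * A).card : ℕ) : ℝ) * (Real.exp (32 * L / Real.log M) * (16 * T ^ 32)) := by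
    intro c hc0 hc h
    have h1 : c * T ^ 32 * ((A' * A').card : ℝ) ≤ 4 * T ^ 32 * ((A' * A').card : ℝ) := by
      apply mul_le_mul_of_nonneg_right _ (by positivity)
      exact mul_le_mul_of_nonneg_right hc (by positivity)
    calc n ^ 2 ≤ 4 * (A'.card : ℝ) ^ 2 := by linarith
      _ ≤ 4 * (4 * T ^ 32 * ((A' * A').card : ℝ)) := by linarith
      _ = (A' * A').card * (1 * (16 * T ^ 32)) := by ring
      _ ≤ ((max (A + A).card (A * A).card : ℕ) : ℝ) * (Real.exp (32 * L / Real.log M) * (16 * T ^ 32)) := by
          apply mul_le_mul hprod _ (by positivity) (by positivity)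
          exact mul_le_mul_of_nonneg_right hexp1 (by positivity)
  rw [div_le_iff₀ (by positivity)]
  by_cases hTM : T < M
  · exact hprodcase 2 (by norm_num) (by norm_num)
      (divisor_case hA'0 hM64 hTM (fun a ha => hT a (hA'sub ha)))
  push Not at hTM
  have hω : ∀ a ∈ A', (a.natAbs.primeFactors.card : ℝ) ≤ L := by
    intro a ha
    have h1 : (2 : ℝ) ^ a.natAbs.primeFactors.card ≤ T := by
      refine le_trans ?_ (hT a (hA'sub ha))
      unfold cappedDivisors
      rw [← Finset.prod_const]
      apply Finset.prod_le_prod (fun _ _ => by norm_num)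
      intro p hp
      apply le_min _ (by linarith)
      have hpos : 1 ≤ a.natAbs.factorization p := by
        rw [← Nat.support_factorization, Finsupp.mem_support_iff] at hp
        omega
      have : (1 : ℝ) ≤ (a.natAbs.factorization p : ℝ) := by exact_mod_cast hpos
      linarith
    have h2 : (2 : ℝ) ^ (32 * a.natAbs.primeFactors.card) ≤ Real.exp L := by
      rw [hexpL, mul_comm, pow_mul]
      exact (pow_le_pow_left₀ (by positivity) h1 32).trans hTbig.le
    have h3 : (2 : ℝ) ^ (32 * a.natAbs.primeFactors.card) =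
        Real.exp (Real.log 2 * ((32 * a.natAbs.primeFactors.card : ℕ) : ℝ)) := by
      rw [Real.exp_mul, Real.exp_log (by norm_num), Real.rpow_natCast]
    rw [h3] at h2
    have h4 := Real.exp_le_exp.mp h2
    push_cast at h4
    have h5 : (0.6931471803 : ℝ) < Real.log 2 := Real.log_two_gt_d9
    have h6 : (0 : ℝ) ≤ (a.natAbs.primeFactors.card : ℝ) := by positivity
    nlinarith
  have hcore := core hA'0 hne' hL0 hM hM64 (by rw [hexpL]; exact hcardle)
    (fun a ha => hT a (hA'sub ha)) hω
  rcases hcore with h | h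
  · have hE : (Real.exp (Real.log 2 * L / (4 * Real.log M))) ^ 2 ≤ Real.exp (32 * L / Real.log M) := by
      rw [← Real.exp_nat_mul]
      apply Real.exp_le_exp.mpr
      have h5 : Real.log 2 < 0.6931471808 := Real.log_two_lt_d9
      have h6 : 0 ≤ L / Real.log M := by positivity
      calc ((2 : ℕ) : ℝ) * (Real.log 2 * L / (4 * Real.log M)) = (Real.log 2 / 2) * (L / Real.log M) := by
            push_cast; field_simp; ring
        _ ≤ 32 * (L / Real.log M) := by
            apply mul_le_mul_of_nonneg_right _ h6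
            linarith
        _ = 32 * L / Real.log M := by ring
    have hM5 : 128 * M ^ 5 ≤ 16 * T ^ 32 := by
      have h1 : M ^ 6 ≤ T ^ 32 := by
        calc M ^ 6 ≤ T ^ 6 := pow_le_pow_left₀ hM0.le hTM 6
          _ ≤ T ^ 32 := pow_le_pow_right₀ hT1 (by norm_num)
      have h2 : M ^ 6 = M * M ^ 5 := by ring
      have h3 : 0 < M ^ 5 := by positivity
      nlinarith
    calc n ^ 2 ≤ 4 * (A'.card : ℝ) ^ 2 := by linarith
      _ ≤ 4 * (32 * M ^ 5 * (Real.exp (Real.log 2 * L / (4 * Real.log M))) ^ 2 * ((A' + A').card : ℝ)) := by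
          linarith
      _ = (A' + A').card * ((Real.exp (Real.log 2 * L / (4 * Real.log M))) ^ 2 * (128 * M ^ 5)) := by ring
      _ ≤ ((max (A + A).card (A * A).card : ℕ) : ℝ) * (Real.exp (32 * L / Real.log M) * (16 * T ^ 32)) := by
          apply mul_le_mul hsum _ (by positivity) (by positivity)
          exact mul_le_mul hE hM5 (by positivity) (by positivity)
  · exact hprodcase 4 (by norm_num) le_rfl h

end Pool.Agent.Helper17
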