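import Pool.Agent.Helper85.IW.Statements
import Pool.Agent.Helper72.BAM.FB2

/-!
# Module IW_A5 of MP_3dd6d4_an (helper17): Plancherel for heat extensions
-/

set_option autoImplicit false
set_option maxSynthPendingDepth 3

open MeasureTheory Complex FourierTransform Filter Topology
open scoped ENNReal NNReal ComplexConjugate

noncomputable section

namespace Helper85.IW.M_A5

open Helper72.BA Helper85.IW

theorem HE_eq (g : ℂ → ℂ) (t : ℝ) (z : ℂ) :
    HE g t z = 𝓕 (fun ξ : ℂ => ((Real.exp (-(max t 0) * ‖ξ‖ ^ 2) : ℝ) : ℂ) * g ξ) (-z) := by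
  rw [HE, Real.fourier_eq]
  apply integral_congr_ae (ae_of_all _ fun ξ => ?_)
  show ch z ξ * _ = 𝐞 (-inner ℝ ξ (-z)) • _
  rw [Circle.smul_def, smul_eq_mul]
  congr 1
  rw [ch, Real.fourierChar_apply]
  congr 1
  rw [inner_neg_right, neg_neg, Complex.inner, Complex.mul_re]
  simp only [Complex.conj_re, Complex.conj_im]
  push_cast
  ring

theorem main (hA1 : StA1) : StA5 := by
  intro g hg t
  have hGR : Rap (fun ξ : ℂ => ((Real.exp (-(max t 0) * ‖ξ‖ ^ 2) : ℝ) : ℂ) * g ξ) := by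
    refine hA1.2 g (fun ξ : ℂ => ((Real.exp (-(max t 0) * ‖ξ‖ ^ 2) : ℝ) : ℂ)) hg ?_ ⟨0, 1, ?_⟩
    · apply Continuous.measurable
      fun_prop
    · intro ξ
      rw [Complex.norm_real, Real.norm_of_nonneg (Real.exp_nonneg _), pow_zero, mul_one]
      apply Real.exp_le_one_iff.mpr
      have h1 : 0 ≤ max t 0 := le_max_right _ _
      have h2 : 0 ≤ ‖ξ‖ ^ 2 := by positivity
      nlinarith [mul_nonneg h1 h2]
  have hN := (hA1.1 _ hGR).2.1
  rw [← Helper72.BA.plancherel hN]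
  simp only [HE_eq]
  exact lintegral_neg_eq_self (μ := volume) (fun z : ℂ => ‖𝓕 (fun ξ : ℂ => ((Real.exp (-(max t 0) * ‖ξ‖ ^ 2) : ℝ) : ℂ) * g ξ) z‖ₑ ^ 2)

end Helper85.IW.M_A5
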