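import Pool.Agent.Helper85.IW.Statements

/-! Module D3: the singular set of the explicit triple is a null set. -/

set_option autoImplicit false
set_option maxSynthPendingDepth 3

namespace Helper85.IW.M_D3

open MeasureTheory

theorem main : StD3 := by
  intro C hC
  have h1 : ∀ᵐ z : E, z.1 ≠ 0 := by
    have h := (Measure.quasiMeasurePreserving_fst (μ := (volume : Measure ℂ))
      (ν := (volume : Measure ℂ))).ae (p := fun x : ℂ => x ≠ 0)
      (by simp [ae_iff])
    exact h
  have h2 : ∀ᵐ z : E, z.2 ≠ 0 := by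
    have h := (Measure.quasiMeasurePreserving_snd (μ := (volume : Measure ℂ))
      (ν := (volume : Measure ℂ))).ae (p := fun x : ℂ => x ≠ 0)
      (by simp [ae_iff])
    exact h
  have h3 : ∀ᵐ z : E, C * ‖z.1‖ ≠ ‖z.2‖ := by
    have hm : MeasurableSet {z : ℂ × ℂ | C * ‖z.1‖ = ‖z.2‖} :=
      measurableSet_eq_fun (measurable_const.mul measurable_fst.norm) measurable_snd.norm
    have h0 : ((volume : Measure ℂ).prod (volume : Measure ℂ)) {z : ℂ × ℂ | C * ‖z.1‖ = ‖z.2‖} = 0 := by
      rw [Measure.measure_prod_null hm]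
      refine Filter.Eventually.of_forall fun x => ?_
      have hs : Prod.mk x ⁻¹' {z : ℂ × ℂ | C * ‖z.1‖ = ‖z.2‖} = Metric.sphere (0 : ℂ) (C * ‖x‖) := by
        ext y
        simp [eq_comm]
      show volume (Prod.mk x ⁻¹' {z : ℂ × ℂ | C * ‖z.1‖ = ‖z.2‖}) = 0
      rw [hs]
      exact Measure.addHaar_sphere volume 0 _
    rw [ae_iff]
    have hset : {z : E | ¬ (C * ‖z.1‖ ≠ ‖z.2‖)} = {z : ℂ × ℂ | C * ‖z.1‖ = ‖z.2‖} := by
      ext z
      simp
    rw [hset]
    exact h0
  filter_upwards [h1, h2, h3] with z a b c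
  exact ⟨a, b, c⟩

end Helper85.IW.M_D3
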